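import Mathlib
import Pool.Agent.Helper376.Ball

namespace Pool.Agent.Helper376.Lac

open Relation

variable {G : Type} [Group G]

/-- Connectivity inside a set by right multiplication by elements of `S`. -/
def Joined (S X : Set G) : G → G → Prop :=
  ReflTransGen (fun g h => g ∈ X ∧ h ∈ X ∧ g⁻¹ * h ∈ S)

theorem Joined.single {S X : Set G} {g h : G} (hg : g ∈ X) (hh : h ∈ X) (hs : g⁻¹ * h ∈ S) :
    Joined S X g h := ReflTransGen.single ⟨hg, hh, hs⟩

theorem Joined.trans {S X : Set G} {g h k : G} (h1 : Joined S X g h) (h2 : Joined S X h k) :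
    Joined S X g k := ReflTransGen.trans h1 h2

theorem Joined.symm {S X : Set G} (hS : ∀ s ∈ S, s⁻¹ ∈ S) {g h : G} (h1 : Joined S X g h) :
    Joined S X h g := by
  induction h1 with
  | refl => exact ReflTransGen.refl
  | tail _ h ih =>
    refine ReflTransGen.head ⟨h.2.1, h.1, ?_⟩ ih
    have := hS _ h.2.2
    simpa using this

theorem Joined.mono {S X Y : Set G} (h : X ⊆ Y) {g k : G} (h1 : Joined S X g k) :
    Joined S Y g k := by
  induction h1 with
  | refl => exact ReflTransGen.refl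
  | tail _ h2 ih => exact ReflTransGen.tail ih ⟨h h2.1, h h2.2.1, h2.2.2⟩

theorem exists_least (P : ℕ → Prop) (h : ∃ k, P k) : ∃ k, P k ∧ ∀ l < k, ¬ P l := by
  classical
  exact ⟨Nat.find h, Nat.find_spec h, fun l hl => Nat.find_min h hl⟩

/-- The finite group lemma: removing a coset does not disconnect. -/
theorem finite_lemma (D W : Subgroup G) (hD : (D : Set G).Finite) (M : Set G)
    (hM : ∀ μ ∈ M, μ⁻¹ ∈ M) (hgen : D ≤ Subgroup.closure ((W : Set G) ∪ M)) {x y : G}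
    (hx : x ∈ D) (hxW : x ∉ W) (hy : y ∈ D) (hyW : y ∉ W) :
    ReflTransGen (fun g h => g ∉ W ∧ h ∉ W ∧ (g⁻¹ * h ∈ W ∨ g⁻¹ * h ∈ M)) x y := by
  classical
  let Y : ℕ → Set G := fun k => Nat.rec (W : Set G)
    (fun _ Z => {z | ∃ y ∈ Z, ∃ μ, (μ ∈ M ∨ μ = 1) ∧ ∃ w ∈ W, z = y * μ * w}) k
  have hY0 : Y 0 = (W : Set G) := rfl
  have hYs : ∀ k, Y (k + 1) = {z | ∃ y ∈ Y k, ∃ μ, (μ ∈ M ∨ μ = 1) ∧ ∃ w ∈ W, z = y * μ * w} :=
    fun k => rfl
  have hYmono1 : ∀ k, Y k ⊆ Y (k + 1) := by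
    intro k z hz
    rw [hYs]
    exact ⟨z, hz, 1, Or.inr rfl, 1, W.one_mem, by simp⟩
  have hYmono : ∀ k l, k ≤ l → Y k ⊆ Y l := by
    intro k l hkl
    induction hkl with
    | refl => exact subset_rfl
    | step _ ih => exact ih.trans (hYmono1 _)
  have hYW : ∀ k, ∀ z ∈ Y k, ∀ w ∈ W, z * w ∈ Y k := by
    intro k z hz w hw
    cases k with
    | zero => exact W.mul_mem hz hw
    | succ k =>
      rw [hYs] at hz ⊢
      obtain ⟨y, hy, μ, hμ, u, hu, rfl⟩ := hz
      exact ⟨y, hy, μ, hμ, u * w, W.mul_mem hu hw, by group⟩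
  have hcover : ∀ d ∈ Subgroup.closure ((W : Set G) ∪ M), ∃ k, d ∈ Y k := by
    intro d hd
    induction hd using Subgroup.closure_induction_right with
    | one => exact ⟨0, W.one_mem⟩
    | mul_right u hu v hv ih =>
      obtain ⟨k, hk⟩ := ih
      rcases hv with hv | hv
      · exact ⟨k, hYW k u hk v hv⟩
      · exact ⟨k + 1, u, hk, v, Or.inl hv, 1, W.one_mem, by simp⟩
    | mul_inv_cancel u hu v hv ih =>
      obtain ⟨k, hk⟩ := ih
      rcases hv with hv | hv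
      · exact ⟨k, hYW k u hk v⁻¹ (W.inv_mem hv)⟩
      · exact ⟨k + 1, u, hk, v⁻¹, Or.inl (hM v hv), 1, W.one_mem, by simp⟩
  have hcD : ∀ d ∈ D, ∃ k, d ∈ Y k := fun d hd => hcover d (hgen hd)
  -- the maximal level
  obtain ⟨K, hK⟩ : ∃ K, ∀ d ∈ D, d ∈ Y K := by
    choose! f hf using hcD
    obtain ⟨K, hK⟩ := (hD.image f).bddAbove
    exact ⟨K, fun d hd => hYmono _ _ (hK ⟨d, hd, rfl⟩) (hf d hd)⟩
  obtain ⟨k₀, hk₀, hmin⟩ := exists_least (fun k => ∀ d ∈ D, d ∈ Y k) ⟨K, hK⟩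
  have hk₀pos : k₀ ≠ 0 := by
    intro h
    have := hk₀ x hx
    rw [h] at this
    exact hxW this
  obtain ⟨k₁, hk₁⟩ : ∃ k₁, k₀ = k₁ + 1 := ⟨k₀ - 1, by omega⟩
  have hnot := hmin k₁ (by omega)
  obtain ⟨ν, hνD, hν⟩ : ∃ ν ∈ D, ν ∉ Y k₁ := by
    by_contra hcon
    push Not at hcon
    exact hnot hcon
  have hνW : ν ∉ W := fun h => hν (hYmono 0 k₁ (Nat.zero_le _) h)
  -- the claim in the translated picture
  let R : G → G → Prop := fun g h => ν⁻¹ * g ∉ W ∧ ν⁻¹ * h ∉ W ∧ (g⁻¹ * h ∈ W ∨ g⁻¹ * h ∈ M)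
  have hRsymm : ∀ g h, R g h → R h g := by
    rintro g h ⟨h1, h2, h3⟩
    refine ⟨h2, h1, ?_⟩
    rcases h3 with h3 | h3
    · left
      have := W.inv_mem h3
      simpa using this
    · right
      have := hM _ h3
      simpa using this
  have hone : ν⁻¹ * 1 ∉ W := by
    intro h
    rw [mul_one] at h
    exact hνW (by simpa using W.inv_mem h)
  have claim : ∀ k, k ≤ k₀ → ∀ z ∈ Y k, ν⁻¹ * z ∉ W → ReflTransGen R 1 z := by
    intro k
    induction k with
    | zero =>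
      intro _ z hz hzW
      have hz' : z ∈ W := hz
      exact ReflTransGen.single ⟨hone, hzW, Or.inl (by simpa using hz')⟩
    | succ k ih =>
      intro hk z hz hzW
      rw [hYs] at hz
      obtain ⟨y, hy, μ, hμ, w, hw, rfl⟩ := hz
      have hyW : ν⁻¹ * y ∉ W := by
        intro h
        apply hν
        apply hYmono k k₁ (by omega)
        have h2 : ν = y * (ν⁻¹ * y)⁻¹ := by group
        rw [h2]
        exact hYW k y hy _ (W.inv_mem h)
      have h1 := ih (by omega) y hy hyW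
      have hyμ : ν⁻¹ * (y * μ) ∉ W := by
        intro h
        apply hzW
        rw [← mul_assoc]
        exact W.mul_mem h hw
      have h2 : ReflTransGen R y (y * μ) := by
        rcases hμ with hμ | hμ
        · exact ReflTransGen.single ⟨hyW, hyμ, Or.inr (by simpa using hμ)⟩
        · rw [hμ, mul_one]
      have h3 : ReflTransGen R (y * μ) (y * μ * w) :=
        ReflTransGen.single ⟨hyμ, hzW, Or.inl (by
          have e : (y * μ)⁻¹ * (y * μ * w) = w := by group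
          rw [e]; exact hw)⟩
      exact (h1.trans h2).trans h3
  have hx1 := claim k₀ le_rfl (ν * x) (hk₀ _ (D.mul_mem hνD hx)) (by simpa using hxW)
  have hy1 := claim k₀ le_rfl (ν * y) (hk₀ _ (D.mul_mem hνD hy)) (by simpa using hyW)
  have hrev : ∀ u v, ReflTransGen R u v → ReflTransGen R v u := by
    intro u v huv
    induction huv with
    | refl => exact ReflTransGen.refl
    | tail _ h ih => exact ReflTransGen.head (hRsymm _ _ h) ih
  have hx2 : ReflTransGen R (ν * x) 1 := hrev _ _ hx1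
  have hxy := hx2.trans hy1
  have trans : ∀ u v, ReflTransGen R u v →
      ReflTransGen (fun g h => g ∉ W ∧ h ∉ W ∧ (g⁻¹ * h ∈ W ∨ g⁻¹ * h ∈ M)) (ν⁻¹ * u) (ν⁻¹ * v) := by
    intro u v huv
    induction huv with
    | refl => exact ReflTransGen.refl
    | @tail p q _ h ih =>
      refine ReflTransGen.tail ih ⟨h.1, h.2.1, ?_⟩
      have e : (ν⁻¹ * p)⁻¹ * (ν⁻¹ * q) = p⁻¹ * q := by group
      rw [e]; exact h.2.2
  have := trans _ _ hxy
  simpa using this

/-- The window subgroups. -/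
def WG (a t : G) (m : ℕ) : Subgroup G :=
  Subgroup.closure {y | ∃ j : ℤ, -(m : ℤ) ≤ j ∧ j ≤ m ∧ y = t ^ j * a * (t ^ j)⁻¹}

/-- Upper lamps. -/
def UpG (a t : G) (m : ℕ) : Subgroup G :=
  Subgroup.closure {y | ∃ j : ℤ, (m : ℤ) < j ∧ y = t ^ j * a * (t ^ j)⁻¹}

/-- Lower lamps. -/
def DnG (a t : G) (m : ℕ) : Subgroup G :=
  Subgroup.closure {y | ∃ j : ℤ, j < -(m : ℤ) ∧ y = t ^ j * a * (t ^ j)⁻¹}

/-- The letters. -/
def SG (a t : G) : Set G := {1, a, a⁻¹, t, t⁻¹}

/-- The boxes. -/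
def Box (a t : G) (m : ℕ) : Set G :=
  {g | ∃ ν ∈ WG a t m, ∃ h : ℤ, -(m : ℤ) ≤ h ∧ h ≤ m ∧ g = ν * t ^ h}

theorem SG_inv {a t x : G} (h : x ∈ SG a t) : x⁻¹ ∈ SG a t := by
  simp only [SG, Set.mem_insert_iff, Set.mem_singleton_iff] at h ⊢
  rcases h with rfl | rfl | rfl | rfl | rfl <;> simp

theorem WG_mono {a t : G} {m m' : ℕ} (h : m ≤ m') : WG a t m ≤ WG a t m' := by
  apply Subgroup.closure_mono
  rintro y ⟨j, hj1, hj2, rfl⟩
  exact ⟨j, by omega, by omega, rfl⟩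

section main

variable {a t : G} (η : G →* Multiplicative ℤ) (ha : η a = 1) (ht : η t = Multiplicative.ofAdd 1)
  (hgen : Subgroup.closure {a, t} = ⊤) (hfin : ∀ m, (WG a t m : Set G).Finite)
  (hinj : ∀ i j : ℤ, t ^ i * a * (t ^ i)⁻¹ = t ^ j * a * (t ^ j)⁻¹ → i = j)

include ht in
theorem eta_zpow (h : ℤ) : η (t ^ h) = Multiplicative.ofAdd h := by
  rw [map_zpow, ht, ← ofAdd_zsmul]; simp

include ha in
theorem eta_lamp (j : ℤ) : η (t ^ j * a * (t ^ j)⁻¹) = 1 := by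
  rw [map_mul, map_mul, map_inv, ha]; simp

include ha in
theorem eta_closure {X : Set G} (hX : ∀ y ∈ X, ∃ j : ℤ, y = t ^ j * a * (t ^ j)⁻¹) {g : G}
    (hg : g ∈ Subgroup.closure X) : η g = 1 := by
  induction hg using Subgroup.closure_induction with
  | mem y hy =>
    obtain ⟨j, rfl⟩ := hX y hy
    exact eta_lamp η ha j
  | one => simp
  | mul y z _ _ h1 h2 => rw [map_mul, h1, h2, one_mul]
  | inv y _ h1 => rw [map_inv, h1, inv_one]

include ha in
theorem eta_WG {m : ℕ} {g : G} (hg : g ∈ WG a t m) : η g = 1 :=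
  eta_closure η ha (by rintro y ⟨j, _, _, rfl⟩; exact ⟨j, rfl⟩) hg

include hgen in
theorem exists_decomp (g : G) : ∃ k : ℕ, ∃ ν ∈ WG a t k, ∃ h : ℤ, g = ν * t ^ h := by
  have hg : g ∈ Subgroup.closure ({a, t} : Set G) := by rw [hgen]; trivial
  induction hg using Subgroup.closure_induction_right with
  | one => exact ⟨0, 1, Subgroup.one_mem _, 0, by simp⟩
  | mul_right x hx y hy ih =>
    obtain ⟨k, ν, hν, h, rfl⟩ := ih
    rcases hy with rfl | hy
    · refine ⟨k + h.natAbs, ν * (t ^ h * y * (t ^ h)⁻¹),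
        Subgroup.mul_mem _ (WG_mono (Nat.le_add_right _ _) hν)
          (Subgroup.subset_closure ⟨h, by omega, by omega, rfl⟩), h,
          by group⟩
    · rw [Set.mem_singleton_iff] at hy
      subst hy
      exact ⟨k, ν, hν, h + 1, by rw [zpow_add_one, mul_assoc]⟩
  | mul_inv_cancel x hx y hy ih =>
    obtain ⟨k, ν, hν, h, rfl⟩ := ih
    rcases hy with rfl | hy
    · refine ⟨k + h.natAbs, ν * (t ^ h * y * (t ^ h)⁻¹)⁻¹,
        Subgroup.mul_mem _ (WG_mono (Nat.le_add_right _ _) hν)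
          (Subgroup.inv_mem _
            (Subgroup.subset_closure ⟨h, by omega, by omega, rfl⟩)), h,
          by group⟩
    · rw [Set.mem_singleton_iff] at hy
      subst hy
      exact ⟨k, ν, hν, h - 1, by rw [zpow_sub_one, mul_assoc]⟩

include ha ht in
theorem box_iff {m : ℕ} {ν : G} (hν : η ν = 1) (h : ℤ) :
    ν * t ^ h ∈ Box a t m ↔ ν ∈ WG a t m ∧ -(m : ℤ) ≤ h ∧ h ≤ m := by
  constructor
  · rintro ⟨ν', hν', h', h1, h2, e⟩
    have e1 := congrArg η e
    rw [map_mul, map_mul, hν, eta_WG η ha hν', eta_zpow η ht, eta_zpow η ht, one_mul,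
      one_mul] at e1
    have e2 : h = h' := Multiplicative.ofAdd.injective e1
    subst e2
    have e3 : ν = ν' := mul_right_cancel e
    subst e3
    exact ⟨hν', h1, h2⟩
  · rintro ⟨h1, h2, h3⟩
    exact ⟨ν, h1, h, h2, h3, rfl⟩

/-- Abbreviation. -/
abbrev JB (a t : G) (m : ℕ) : G → G → Prop := Joined (SG a t) (Box a t m)ᶜ

theorem JBsymm {m : ℕ} {x y : G} (h : JB a t m x y) : JB a t m y x :=
  Joined.symm (fun _ hs => SG_inv hs) h

theorem step_t (ν : G) (h : ℤ) : (ν * t ^ h)⁻¹ * (ν * t ^ (h + 1)) ∈ SG a t := by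
  have : (ν * t ^ h)⁻¹ * (ν * t ^ (h + 1)) = t := by rw [zpow_add_one]; group
  rw [this]; simp [SG]

theorem vert_aux {m : ℕ} (ν : G) (lo hi : ℤ)
    (hX : ∀ h, lo ≤ h → h ≤ hi → ν * t ^ h ∈ (Box a t m)ᶜ) (h h' : ℤ) (h1 : lo ≤ h) (h2 : h ≤ h')
    (h3 : h' ≤ hi) : JB a t m (ν * t ^ h) (ν * t ^ h') := by
  have key : ∀ k : ℕ, h + k ≤ hi → JB a t m (ν * t ^ h) (ν * t ^ (h + k)) := by
    intro k
    induction k with
    | zero =>
      intro _
      rw [Nat.cast_zero, add_zero]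
      exact ReflTransGen.refl
    | succ k ih =>
      intro hk
      refine Joined.trans (ih (by push_cast at hk; omega)) (Joined.single (hX _ (by omega)
        (by push_cast at hk; omega)) (hX _ (by push_cast; omega) hk) ?_)
      have e : h + ((k + 1 : ℕ) : ℤ) = h + k + 1 := by push_cast; ring
      rw [e]
      exact step_t ν _
  have := key (h' - h).toNat (by rw [Int.toNat_of_nonneg (by omega)]; omega)
  rw [Int.toNat_of_nonneg (by omega)] at this
  simpa using this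

include ha ht in
theorem vert_all {m : ℕ} {ν : G} (hν : η ν = 1) (hW : ν ∉ WG a t m) (h h' : ℤ) :
    JB a t m (ν * t ^ h) (ν * t ^ h') := by
  have hX : ∀ h : ℤ, ν * t ^ h ∈ (Box a t m)ᶜ := by
    intro h hmem
    exact hW ((box_iff η ha ht hν h).1 hmem).1
  rcases le_total h h' with hh | hh
  · exact vert_aux ν h h' (fun k _ _ => hX k) h h' le_rfl hh le_rfl
  · exact JBsymm (vert_aux ν h' h (fun k _ _ => hX k) h' h le_rfl hh le_rfl)

include ha ht in
theorem vert_up {m : ℕ} {ν : G} (hν : η ν = 1) (h h' : ℤ) (h1 : (m : ℤ) < h) (h2 : (m : ℤ) < h') :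
    JB a t m (ν * t ^ h) (ν * t ^ h') := by
  have hX : ∀ h : ℤ, (m : ℤ) < h → ν * t ^ h ∈ (Box a t m)ᶜ := by
    intro h hh hmem
    have := ((box_iff η ha ht hν h).1 hmem).2.2
    omega
  rcases le_total h h' with hh | hh
  · exact vert_aux ν h h' (fun k _ _ => hX k (by omega)) h h' le_rfl hh le_rfl
  · exact JBsymm (vert_aux ν h' h (fun k _ _ => hX k (by omega)) h' h le_rfl hh le_rfl)

include ha ht in
theorem vert_dn {m : ℕ} {ν : G} (hν : η ν = 1) (h h' : ℤ) (h1 : h < -(m : ℤ))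
    (h2 : h' < -(m : ℤ)) : JB a t m (ν * t ^ h) (ν * t ^ h') := by
  have hX : ∀ h : ℤ, h < -(m : ℤ) → ν * t ^ h ∈ (Box a t m)ᶜ := by
    intro h hh hmem
    have := ((box_iff η ha ht hν h).1 hmem).2.1
    omega
  rcases le_total h h' with hh | hh
  · exact vert_aux ν h h' (fun k _ _ => hX k (by omega)) h h' le_rfl hh le_rfl
  · exact JBsymm (vert_aux ν h' h (fun k _ _ => hX k (by omega)) h' h le_rfl hh le_rfl)

theorem horiz {m : ℕ} (ν : G) (j : ℤ) (h1 : ν * t ^ j ∈ (Box a t m)ᶜ)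
    (h2 : ν * (t ^ j * a * (t ^ j)⁻¹) * t ^ j ∈ (Box a t m)ᶜ) :
    JB a t m (ν * t ^ j) (ν * (t ^ j * a * (t ^ j)⁻¹) * t ^ j) := by
  refine Joined.single h1 h2 ?_
  have : (ν * t ^ j)⁻¹ * (ν * (t ^ j * a * (t ^ j)⁻¹) * t ^ j) = a := by group
  rw [this]; simp [SG]

include ha in
theorem eta_mul_lamp {ν : G} (hν : η ν = 1) (j : ℤ) : η (ν * (t ^ j * a * (t ^ j)⁻¹)) = 1 := by
  rw [map_mul, hν, eta_lamp η ha, one_mul]

include ha ht in
theorem horiz_out {m : ℕ} {ν : G} (hν : η ν = 1) (j : ℤ) (hj : j < -(m : ℤ) ∨ (m : ℤ) < j) :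
    JB a t m (ν * t ^ j) (ν * (t ^ j * a * (t ^ j)⁻¹) * t ^ j) := by
  apply horiz
  · intro hmem
    have := ((box_iff η ha ht hν j).1 hmem).2
    omega
  · intro hmem
    have := ((box_iff η ha ht (eta_mul_lamp (t := t) η ha hν j) j).1 hmem).2
    omega

include ha ht in
theorem up_move {m : ℕ} {ν : G} (hν : η ν = 1) {μ : G} (hμ : μ ∈ UpG a t m) :
    η (ν * μ) = 1 ∧ JB a t m (ν * t ^ ((m : ℤ) + 1)) (ν * μ * t ^ ((m : ℤ) + 1)) := by
  unfold UpG at hμ
  induction hμ using Subgroup.closure_induction_right with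
  | one => simpa using ⟨hν, ReflTransGen.refl⟩
  | mul_right x hx y hy ih =>
    obtain ⟨ih1, ih2⟩ := ih
    obtain ⟨j, hj, rfl⟩ := hy
    have e1 := eta_mul_lamp (t := t) η ha ih1 j
    rw [← mul_assoc ν x]
    refine ⟨e1, ?_⟩
    have s1 := vert_up η ha ht ih1 ((m : ℤ) + 1) j (by omega) hj
    have s2 := horiz_out η ha ht ih1 (m := m) j (Or.inr hj)
    have s3 := vert_up η ha ht e1 j ((m : ℤ) + 1) hj (by omega)
    exact ((ih2.trans s1).trans s2).trans s3
  | mul_inv_cancel x hx y hy ih =>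
    obtain ⟨ih1, ih2⟩ := ih
    obtain ⟨j, hj, rfl⟩ := hy
    have e1 : η (ν * (x * (t ^ j * a * (t ^ j)⁻¹)⁻¹)) = 1 := by
      rw [← mul_assoc, map_mul, ih1, map_inv, eta_lamp η ha]; simp
    refine ⟨e1, ?_⟩
    have s1 := vert_up η ha ht ih1 ((m : ℤ) + 1) j (by omega) hj
    have s2 := horiz_out η ha ht e1 (m := m) j (Or.inr hj)
    have e2 : ν * (x * (t ^ j * a * (t ^ j)⁻¹)⁻¹) * (t ^ j * a * (t ^ j)⁻¹) = ν * x := by group
    rw [e2] at s2
    have s3 := vert_up η ha ht e1 j ((m : ℤ) + 1) hj (by omega)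
    exact ((ih2.trans s1).trans (JBsymm s2)).trans s3

include ha ht in
theorem dn_move {m : ℕ} {ν : G} (hν : η ν = 1) {μ : G} (hμ : μ ∈ DnG a t m) :
    η (ν * μ) = 1 ∧ JB a t m (ν * t ^ (-(m : ℤ) - 1)) (ν * μ * t ^ (-(m : ℤ) - 1)) := by
  unfold DnG at hμ
  induction hμ using Subgroup.closure_induction_right with
  | one => simpa using ⟨hν, ReflTransGen.refl⟩
  | mul_right x hx y hy ih =>
    obtain ⟨ih1, ih2⟩ := ih
    obtain ⟨j, hj, rfl⟩ := hy
    have e1 := eta_mul_lamp (t := t) η ha ih1 j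
    rw [← mul_assoc ν x]
    refine ⟨e1, ?_⟩
    have s1 := vert_dn η ha ht ih1 (-(m : ℤ) - 1) j (by omega) hj
    have s2 := horiz_out η ha ht ih1 (m := m) j (Or.inl hj)
    have s3 := vert_dn η ha ht e1 j (-(m : ℤ) - 1) hj (by omega)
    exact ((ih2.trans s1).trans s2).trans s3
  | mul_inv_cancel x hx y hy ih =>
    obtain ⟨ih1, ih2⟩ := ih
    obtain ⟨j, hj, rfl⟩ := hy
    have e1 : η (ν * (x * (t ^ j * a * (t ^ j)⁻¹)⁻¹)) = 1 := by
      rw [← mul_assoc, map_mul, ih1, map_inv, eta_lamp η ha]; simp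
    refine ⟨e1, ?_⟩
    have s1 := vert_dn η ha ht ih1 (-(m : ℤ) - 1) j (by omega) hj
    have s2 := horiz_out η ha ht e1 (m := m) j (Or.inl hj)
    have e2 : ν * (x * (t ^ j * a * (t ^ j)⁻¹)⁻¹) * (t ^ j * a * (t ^ j)⁻¹) = ν * x := by group
    rw [e2] at s2
    have s3 := vert_dn η ha ht e1 j (-(m : ℤ) - 1) hj (by omega)
    exact ((ih2.trans s1).trans (JBsymm s2)).trans s3

include ha ht in
theorem in_move {m : ℕ} {ν : G} (hν : η ν = 1) (hνW : ν ∉ WG a t m) {μ : G}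
    (hμ : μ ∈ WG a t m) :
    η (ν * μ) = 1 ∧ JB a t m ν (ν * μ) := by
  have hμ0 := hμ
  unfold WG at hμ
  induction hμ using Subgroup.closure_induction_right with
  | one => simpa using ⟨hν, ReflTransGen.refl⟩
  | mul_right x hx y hy ih =>
    obtain ⟨ih1, ih2⟩ := ih hx
    obtain ⟨j, hj1, hj2, rfl⟩ := hy
    have e1 := eta_mul_lamp (t := t) η ha ih1 j
    have hw1 : ν * x ∉ WG a t m := fun h => hνW (by
      have := Subgroup.mul_mem _ h (Subgroup.inv_mem _ hx)
      rwa [mul_inv_cancel_right] at this)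
    have hw2 : ν * (x * (t ^ j * a * (t ^ j)⁻¹)) ∉ WG a t m := fun h => hνW (by
      have := Subgroup.mul_mem _ h (Subgroup.inv_mem _ hμ0)
      rwa [mul_inv_cancel_right] at this)
    rw [← mul_assoc ν x] at hw2 ⊢
    refine ⟨e1, ?_⟩
    have s1 := vert_all η ha ht ih1 hw1 0 j
    have s2 : JB a t m (ν * x * t ^ j) (ν * x * (t ^ j * a * (t ^ j)⁻¹) * t ^ j) := by
      apply horiz
      · intro hmem; exact hw1 ((box_iff η ha ht ih1 j).1 hmem).1
      · intro hmem; exact hw2 ((box_iff η ha ht e1 j).1 hmem).1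
    have s3 := vert_all η ha ht e1 hw2 j 0
    rw [zpow_zero, mul_one] at s1 s3
    exact ((ih2.trans s1).trans s2).trans s3
  | mul_inv_cancel x hx y hy ih =>
    obtain ⟨ih1, ih2⟩ := ih hx
    obtain ⟨j, hj1, hj2, rfl⟩ := hy
    have e1 : η (ν * (x * (t ^ j * a * (t ^ j)⁻¹)⁻¹)) = 1 := by
      rw [← mul_assoc, map_mul, ih1, map_inv, eta_lamp η ha]; simp
    have hw1 : ν * x ∉ WG a t m := fun h => hνW (by
      have := Subgroup.mul_mem _ h (Subgroup.inv_mem _ hx)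
      rwa [mul_inv_cancel_right] at this)
    have hw2 : ν * (x * (t ^ j * a * (t ^ j)⁻¹)⁻¹) ∉ WG a t m := fun h => hνW (by
      have := Subgroup.mul_mem _ h (Subgroup.inv_mem _ hμ0)
      rwa [mul_inv_cancel_right] at this)
    refine ⟨e1, ?_⟩
    have e2 : ν * (x * (t ^ j * a * (t ^ j)⁻¹)⁻¹) * (t ^ j * a * (t ^ j)⁻¹) = ν * x := by group
    have s1 := vert_all η ha ht ih1 hw1 0 j
    have s2 : JB a t m (ν * (x * (t ^ j * a * (t ^ j)⁻¹)⁻¹) * t ^ j)
        (ν * (x * (t ^ j * a * (t ^ j)⁻¹)⁻¹) * (t ^ j * a * (t ^ j)⁻¹) * t ^ j) := by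
      apply horiz
      · intro hmem; exact hw2 ((box_iff η ha ht e1 j).1 hmem).1
      · rw [e2]; intro hmem; exact hw1 ((box_iff η ha ht ih1 j).1 hmem).1
    rw [e2] at s2
    have s3 := vert_all η ha ht e1 hw2 j 0
    rw [zpow_zero, mul_one] at s1 s3
    exact ((ih2.trans s1).trans (JBsymm s2)).trans s3

include ha ht hfin in
theorem kernel_connected {m : ℕ} {x y : G} (hx : η x = 1) (hxW : x ∉ WG a t m)
    (hyW : y ∉ WG a t m) {m' : ℕ} (hx' : x ∈ WG a t m') (hy' : y ∈ WG a t m') :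
    JB a t m x y := by
  have hM : ∀ μ ∈ ((UpG a t m : Set G) ∪ (DnG a t m : Set G)),
      μ⁻¹ ∈ ((UpG a t m : Set G) ∪ (DnG a t m : Set G)) := by
    rintro μ (h | h)
    · exact Or.inl (Subgroup.inv_mem _ h)
    · exact Or.inr (Subgroup.inv_mem _ h)
  have hle : WG a t m' ≤ Subgroup.closure ((WG a t m : Set G) ∪
      ((UpG a t m : Set G) ∪ (DnG a t m : Set G))) := by
    conv_lhs => unfold WG
    rw [Subgroup.closure_le]
    rintro z ⟨j, hj1, hj2, rfl⟩
    apply Subgroup.subset_closure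
    rcases lt_or_ge j (-(m : ℤ)) with h | h
    · exact Or.inr (Or.inr (Subgroup.subset_closure ⟨j, h, rfl⟩))
    · rcases le_or_gt j m with h2 | h2
      · exact Or.inl (Subgroup.subset_closure ⟨j, h, h2, rfl⟩)
      · exact Or.inr (Or.inl (Subgroup.subset_closure ⟨j, h2, rfl⟩))
  have := finite_lemma (WG a t m') (WG a t m) (hfin m') _ hM hle hx' hxW hy' hyW
  have key : ∀ z, ReflTransGen (fun g h => g ∉ WG a t m ∧ h ∉ WG a t m ∧ (g⁻¹ * h ∈ WG a t m ∨
      g⁻¹ * h ∈ ((UpG a t m : Set G) ∪ (DnG a t m : Set G)))) x z → η z = 1 ∧ JB a t m x z := by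
    intro z hz
    induction hz with
    | refl => exact ⟨hx, ReflTransGen.refl⟩
    | @tail u v _ huv ih =>
      obtain ⟨hu, hv, hor⟩ := huv
      obtain ⟨ih1, ih2⟩ := ih
      have e : v = u * (u⁻¹ * v) := by group
      rcases hor with h | h | h
      · have := in_move η ha ht ih1 hu h
        rw [← e] at this
        exact ⟨this.1, ih2.trans this.2⟩
      · have := up_move η ha ht ih1 h
        rw [← e] at this
        have s1 := vert_all η ha ht ih1 hu 0 ((m : ℤ) + 1)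
        have s3 := vert_all η ha ht this.1 hv ((m : ℤ) + 1) 0
        rw [zpow_zero, mul_one] at s1 s3
        exact ⟨this.1, ((ih2.trans s1).trans this.2).trans s3⟩
      · have := dn_move η ha ht ih1 h
        rw [← e] at this
        have s1 := vert_all η ha ht ih1 hu 0 (-(m : ℤ) - 1)
        have s3 := vert_all η ha ht this.1 hv (-(m : ℤ) - 1) 0
        rw [zpow_zero, mul_one] at s1 s3
        exact ⟨this.1, ((ih2.trans s1).trans this.2).trans s3⟩
  exact (key y this).2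

include hfin hinj in
theorem exists_far (m : ℕ) (lo : ℤ) : ∃ j : ℤ, lo < j ∧ t ^ j * a * (t ^ j)⁻¹ ∉ WG a t m := by
  by_contra hcon
  push Not at hcon
  have h1 : (Set.Ioi lo).Infinite := Set.Ioi_infinite lo
  apply h1
  apply Set.Finite.of_finite_image (f := fun j : ℤ => t ^ j * a * (t ^ j)⁻¹)
  · refine (hfin m).subset ?_
    rintro _ ⟨j, hj, rfl⟩
    exact hcon j hj
  · intro i _ j _ hij
    exact hinj i j hij

include hfin hinj in
theorem exists_far' (m : ℕ) (hi : ℤ) : ∃ j : ℤ, j < hi ∧ t ^ j * a * (t ^ j)⁻¹ ∉ WG a t m := by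
  by_contra hcon
  push Not at hcon
  have h1 : (Set.Iio hi).Infinite := Set.Iio_infinite hi
  apply h1
  apply Set.Finite.of_finite_image (f := fun j : ℤ => t ^ j * a * (t ^ j)⁻¹)
  · refine (hfin m).subset ?_
    rintro _ ⟨j, hj, rfl⟩
    exact hcon j hj
  · intro i _ j _ hij
    exact hinj i j hij

include ha ht hgen hfin hinj in
theorem to_kernel (m : ℕ) (x : G) (hx : x ∉ Box a t m) :
    ∃ ν, η ν = 1 ∧ ν ∉ WG a t m ∧ (∃ k, ν ∈ WG a t k) ∧ JB a t m x ν := by
  obtain ⟨k, ν, hν, h, rfl⟩ := exists_decomp hgen x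
  have hη := eta_WG η ha hν
  by_cases hW : ν ∈ WG a t m
  · have hh : h < -(m : ℤ) ∨ (m : ℤ) < h := by
      by_contra hcon
      push Not at hcon
      exact hx ((box_iff η ha ht hη h).2 ⟨hW, hcon.1, hcon.2⟩)
    rcases hh with hh | hh
    · obtain ⟨j, hj, hjW⟩ := exists_far' (a := a) (t := t) hfin hinj m (-(m : ℤ))
      have hW2 : ν * (t ^ j * a * (t ^ j)⁻¹) ∉ WG a t m := fun h' => hjW (by
        have := Subgroup.mul_mem _ (Subgroup.inv_mem _ hW) h'; simpa using this)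
      have e1 := eta_mul_lamp (t := t) η ha hη j
      refine ⟨_, e1, hW2, ⟨k + j.natAbs, Subgroup.mul_mem _ (WG_mono (Nat.le_add_right _ _) hν)
        (Subgroup.subset_closure ⟨j, by omega, by omega, rfl⟩)⟩, ?_⟩
      have s1 := vert_dn η ha ht hη h j hh hj
      have s2 := horiz_out η ha ht hη (m := m) j (Or.inl hj)
      have s3 := vert_all η ha ht e1 hW2 j 0
      rw [zpow_zero, mul_one] at s3
      exact (s1.trans s2).trans s3
    · obtain ⟨j, hj, hjW⟩ := exists_far (a := a) (t := t) hfin hinj m m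
      have hW2 : ν * (t ^ j * a * (t ^ j)⁻¹) ∉ WG a t m := fun h' => hjW (by
        have := Subgroup.mul_mem _ (Subgroup.inv_mem _ hW) h'; simpa using this)
      have e1 := eta_mul_lamp (t := t) η ha hη j
      refine ⟨_, e1, hW2, ⟨k + j.natAbs, Subgroup.mul_mem _ (WG_mono (Nat.le_add_right _ _) hν)
        (Subgroup.subset_closure ⟨j, by omega, by omega, rfl⟩)⟩, ?_⟩
      have s1 := vert_up η ha ht hη h j hh hj
      have s2 := horiz_out η ha ht hη (m := m) j (Or.inr hj)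
      have s3 := vert_all η ha ht e1 hW2 j 0
      rw [zpow_zero, mul_one] at s3
      exact (s1.trans s2).trans s3
  · refine ⟨ν, hη, hW, ⟨k, hν⟩, ?_⟩
    have := vert_all η ha ht hη hW h 0
    rwa [zpow_zero, mul_one] at this

include ha ht hgen hfin hinj in
/-- The complement of a box is connected. -/
theorem box_connected (m : ℕ) (x y : G) (hx : x ∉ Box a t m) (hy : y ∉ Box a t m) :
    JB a t m x y := by
  obtain ⟨u, hu, huW, ⟨k, hk⟩, h1⟩ := to_kernel η ha ht hgen hfin hinj m x hx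
  obtain ⟨v, hv, hvW, ⟨l, hl⟩, h2⟩ := to_kernel η ha ht hgen hfin hinj m y hy
  have h3 := kernel_connected η ha ht hfin hu huW hvW (m' := k + l)
    (WG_mono (Nat.le_add_right _ _) hk) (WG_mono (Nat.le_add_left _ _) hl)
  exact (h1.trans h3).trans (JBsymm h2)

include hgen in
theorem mem_box (g : G) : ∃ m, g ∈ Box a t m := by
  obtain ⟨k, ν, hν, h, rfl⟩ := exists_decomp hgen g
  exact ⟨k + h.natAbs, ν, WG_mono (Nat.le_add_right _ _) hν, h, by omega, by omega, rfl⟩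

theorem box_mono {m m' : ℕ} (h : m ≤ m') : Box a t m ⊆ Box a t m' := by
  rintro g ⟨ν, hν, h', h1, h2, rfl⟩
  exact ⟨ν, WG_mono h hν, h', by omega, by omega, rfl⟩

include hgen in
theorem finite_subset_box {X : Set G} (hX : X.Finite) : ∃ m, X ⊆ Box a t m := by
  choose f hf using (mem_box (a := a) (t := t) hgen)
  obtain ⟨m, hm⟩ := (hX.image f).bddAbove
  exact ⟨m, fun x hx => box_mono (hm ⟨x, hx, rfl⟩) (hf x)⟩

include hfin in
theorem box_finite (m : ℕ) : (Box a t m).Finite := by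
  refine (Set.Finite.image2 (fun ν (h : ℤ) => ν * t ^ h) (hfin m)
    (Set.finite_Icc (-(m : ℤ)) m)).subset ?_
  rintro g ⟨ν, hν, h, h1, h2, rfl⟩
  exact ⟨ν, hν, h, ⟨h1, h2⟩, rfl⟩

end main

end Pool.Agent.Helper376.Lac
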