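import Mathlib

namespace Pool.Agent.Helper376.Lac

/-- Equivariant bijections between finite free sets. -/
theorem exists_equivariant {Γ A B : Type} [Group Γ] [Group A] [Group B] [Fintype A] [Fintype B]
    (i : A →* Γ) (j : B →* Γ) (hi : Function.Injective i) (hj : Function.Injective j)
    (φ : A ≃* B) (n : ℕ) : ∀ Y₁ Y₂ : Finset Γ, Y₁.card = n → Y₂.card = n →
      (∀ a : A, ∀ y ∈ Y₁, i a * y ∈ Y₁) → (∀ b : B, ∀ y ∈ Y₂, j b * y ∈ Y₂) →
      ∃ τ : Γ → Γ, Set.BijOn τ Y₁ Y₂ ∧ ∀ a : A, ∀ y ∈ Y₁, τ (i a * y) = j (φ a) * τ y := by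
  classical
  induction n using Nat.strong_induction_on with
  | _ n ih =>
    intro Y₁ Y₂ h₁ h₂ hA hB
    rcases Finset.eq_empty_or_nonempty Y₁ with he | ⟨y₁, hy₁⟩
    · subst he
      have h3 : Y₂ = ∅ := by
        rw [← Finset.card_eq_zero, h₂, ← h₁, Finset.card_empty]
      subst h3
      exact ⟨id, by simp, by simp⟩
    · have hne : Y₂.Nonempty := by
        rw [← Finset.card_pos, h₂, ← h₁]
        exact Finset.card_pos.2 ⟨y₁, hy₁⟩
      obtain ⟨y₂, hy₂⟩ := hne
      -- the two orbits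
      let O₁ : Finset Γ := Finset.univ.image (fun a : A => i a * y₁)
      let O₂ : Finset Γ := Finset.univ.image (fun b : B => j b * y₂)
      have hO₁ : O₁ ⊆ Y₁ := by
        intro x hx
        obtain ⟨a, _, rfl⟩ := Finset.mem_image.1 hx
        exact hA a _ hy₁
      have hO₂ : O₂ ⊆ Y₂ := by
        intro x hx
        obtain ⟨a, _, rfl⟩ := Finset.mem_image.1 hx
        exact hB a _ hy₂
      have c₁ : O₁.card = Fintype.card A := by
        rw [Finset.card_image_of_injective, Finset.card_univ]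
        intro a b hab
        exact hi (mul_right_cancel hab)
      have c₂ : O₂.card = Fintype.card B := by
        rw [Finset.card_image_of_injective, Finset.card_univ]
        intro a b hab
        exact hj (mul_right_cancel hab)
      have c₃ : Fintype.card A = Fintype.card B := Fintype.card_congr φ.toEquiv
      have hpos : 0 < Fintype.card A := Fintype.card_pos
      have d₁ : (Y₁ \ O₁).card = n - Fintype.card A := by
        rw [Finset.card_sdiff_of_subset hO₁, h₁, c₁]
      have d₂ : (Y₂ \ O₂).card = n - Fintype.card A := by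
        rw [Finset.card_sdiff_of_subset hO₂, h₂, c₂, c₃]
      have hle : Fintype.card A ≤ n := by
        rw [← c₁, ← h₁]; exact Finset.card_le_card hO₁
      obtain ⟨τ, hτ, hτe⟩ := ih (n - Fintype.card A) (by omega) (Y₁ \ O₁) (Y₂ \ O₂) d₁ d₂
        (by
          intro a y hy
          rw [Finset.mem_sdiff] at hy ⊢
          refine ⟨hA a y hy.1, fun hmem => hy.2 ?_⟩
          obtain ⟨c, _, hc⟩ := Finset.mem_image.1 hmem
          refine Finset.mem_image.2 ⟨a⁻¹ * c, Finset.mem_univ _, ?_⟩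
          rw [map_mul, map_inv, mul_assoc, hc]; group)
        (by
          intro a y hy
          rw [Finset.mem_sdiff] at hy ⊢
          refine ⟨hB a y hy.1, fun hmem => hy.2 ?_⟩
          obtain ⟨c, _, hc⟩ := Finset.mem_image.1 hmem
          refine Finset.mem_image.2 ⟨a⁻¹ * c, Finset.mem_univ _, ?_⟩
          rw [map_mul, map_inv, mul_assoc, hc]; group)
      -- on the orbit of `y₁`
      have hex : ∀ x ∈ O₁, ∃ a : A, i a * y₁ = x := by
        intro x hx
        obtain ⟨a, _, ha⟩ := Finset.mem_image.1 hx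
        exact ⟨a, ha⟩
      let σ : Γ → Γ := fun x => if h : x ∈ O₁ then j (φ (hex x h).choose) * y₂ else τ x
      have hσO : ∀ a : A, σ (i a * y₁) = j (φ a) * y₂ := by
        intro a
        have hm : i a * y₁ ∈ O₁ := Finset.mem_image.2 ⟨a, Finset.mem_univ _, rfl⟩
        have h4 : (hex _ hm).choose = a := hi (mul_right_cancel (hex _ hm).choose_spec)
        simp only [σ, hm, dif_pos, h4]
      have hσN : ∀ x, x ∉ O₁ → σ x = τ x := by
        intro x hx
        simp only [σ, hx, dif_neg, not_false_iff]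
      refine ⟨σ, ⟨?_, ?_, ?_⟩, ?_⟩
      · intro x hx
        by_cases hxO : x ∈ O₁
        · obtain ⟨a, rfl⟩ := hex x hxO
          rw [hσO]
          exact hB _ _ hy₂
        · rw [hσN x hxO]
          have := hτ.1 (show x ∈ ((Y₁ \ O₁ : Finset Γ) : Set Γ) from
            Finset.mem_coe.2 (Finset.mem_sdiff.2 ⟨hx, hxO⟩))
          exact (Finset.mem_sdiff.1 (Finset.mem_coe.1 this)).1
      · intro x hx y hy hxy
        have key : ∀ x ∈ Y₁, x ∉ O₁ → σ x ∉ O₂ := by
          intro x hx hxO
          rw [hσN x hxO]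
          have := hτ.1 (show x ∈ ((Y₁ \ O₁ : Finset Γ) : Set Γ) from
            Finset.mem_coe.2 (Finset.mem_sdiff.2 ⟨hx, hxO⟩))
          exact (Finset.mem_sdiff.1 (Finset.mem_coe.1 this)).2
        have key2 : ∀ x ∈ O₁, σ x ∈ O₂ := by
          intro x hx
          obtain ⟨a, rfl⟩ := hex x hx
          rw [hσO]
          exact Finset.mem_image.2 ⟨φ a, Finset.mem_univ _, rfl⟩
        by_cases hxO : x ∈ O₁ <;> by_cases hyO : y ∈ O₁
        · obtain ⟨a, rfl⟩ := hex x hxO
          obtain ⟨b, rfl⟩ := hex y hyO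
          rw [hσO, hσO] at hxy
          have := φ.injective (hj (mul_right_cancel hxy))
          rw [this]
        · exact absurd (hxy ▸ key2 x hxO) (key y hy hyO)
        · exact absurd (hxy ▸ key2 y hyO) (key x hx hxO)
        · rw [hσN x hxO, hσN y hyO] at hxy
          exact hτ.2.1 (Finset.mem_coe.2 (Finset.mem_sdiff.2 ⟨hx, hxO⟩))
            (Finset.mem_coe.2 (Finset.mem_sdiff.2 ⟨hy, hyO⟩)) hxy
      · intro z hz
        by_cases hzO : z ∈ O₂
        · obtain ⟨b, _, hb⟩ := Finset.mem_image.1 hzO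
          refine ⟨i (φ.symm b) * y₁, hA _ _ hy₁, ?_⟩
          rw [hσO, MulEquiv.apply_symm_apply, hb]
        · obtain ⟨x, hx, hxz⟩ := hτ.2.2 (show z ∈ ((Y₂ \ O₂ : Finset Γ) : Set Γ) from
            Finset.mem_coe.2 (Finset.mem_sdiff.2 ⟨hz, hzO⟩))
          have hx' := Finset.mem_sdiff.1 (Finset.mem_coe.1 hx)
          exact ⟨x, hx'.1, by rw [hσN x hx'.2, hxz]⟩
      · intro a y hy
        by_cases hyO : y ∈ O₁
        · obtain ⟨b, rfl⟩ := hex y hyO
          rw [← mul_assoc, ← map_mul, hσO, hσO, map_mul, map_mul, mul_assoc]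
        · have hn : i a * y ∉ O₁ := by
            intro hmem
            apply hyO
            obtain ⟨c, _, hc⟩ := Finset.mem_image.1 hmem
            refine Finset.mem_image.2 ⟨a⁻¹ * c, Finset.mem_univ _, ?_⟩
            rw [map_mul, map_inv, mul_assoc, hc]; group
          rw [hσN _ hn, hσN _ hyO]
          exact hτe a y (Finset.mem_sdiff.2 ⟨hy, hyO⟩)

open HNNExtension

section HNN

variable {V : Type} [Group V] [Finite V] {A B : Subgroup V} {φ : A ≃* B}

/-- For a finite subset invariant under `V` there is a permutation extending the partial action of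
the stable letter. -/
theorem exists_perm (T : Finset (HNNExtension V A B φ))
    (hT : ∀ v : V, ∀ x ∈ T, (of v : HNNExtension V A B φ) * x ∈ T) :
    ∃ τ : Equiv.Perm T,
      (∀ a : A, ∀ x : T, (τ ⟨of (a : V) * x.1, hT _ _ x.2⟩).1 = of (φ a : V) * (τ x).1) ∧
      (∀ x : T, t * x.1 ∈ T → (τ x).1 = t * x.1) := by
  classical
  haveI := Fintype.ofFinite A
  haveI := Fintype.ofFinite B
  let Γ := HNNExtension V A B φ
  let D : Finset Γ := T.filter (fun x => t * x ∈ T)
  let D' : Finset Γ := D.image (fun x => t * x)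
  have hD'T : D' ⊆ T := by
    intro y hy
    obtain ⟨x, hx, rfl⟩ := Finset.mem_image.1 hy
    exact (Finset.mem_filter.1 hx).2
  have hcard : D'.card = D.card := Finset.card_image_of_injective _ (mul_right_injective _)
  have hcard2 : (T \ D).card = (T \ D').card := by
    rw [Finset.card_sdiff_of_subset (Finset.filter_subset _ _), Finset.card_sdiff_of_subset hD'T,
      hcard]
  have memD' : ∀ y ∈ T, (y ∈ D' ↔ t⁻¹ * y ∈ T) := by
    intro y hy
    constructor
    · intro h
      obtain ⟨x, hx, rfl⟩ := Finset.mem_image.1 h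
      simpa using (Finset.mem_filter.1 hx).1
    · intro h
      refine Finset.mem_image.2 ⟨t⁻¹ * y, Finset.mem_filter.2 ⟨h, by simpa using hy⟩, by simp⟩
  have hTiff : ∀ (v : V) (x : Γ), (of v : Γ) * x ∈ T ↔ x ∈ T := by
    intro v x
    constructor
    · intro h
      have := hT v⁻¹ _ h
      simpa using this
    · exact hT v x
  obtain ⟨τ₀, hb, he⟩ := exists_equivariant (Γ := Γ) (A := A) (B := B)
    ((of : V →* Γ).comp A.subtype) ((of : V →* Γ).comp B.subtype)
    ((of_injective φ).comp A.subtype_injective)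
    ((of_injective φ).comp B.subtype_injective) φ (T \ D).card (T \ D) (T \ D') rfl hcard2.symm
    (by
      intro a y hy
      rw [Finset.mem_sdiff, Finset.mem_filter] at hy ⊢
      simp only [MonoidHom.comp_apply, Subgroup.subtype_apply]
      refine ⟨hT _ _ hy.1, fun h => hy.2 ⟨hy.1, ?_⟩⟩
      have h2 := h.2
      rw [← mul_assoc, t_mul_of, mul_assoc, hTiff] at h2
      exact h2)
    (by
      intro b y hy
      rw [Finset.mem_sdiff] at hy ⊢
      simp only [MonoidHom.comp_apply, Subgroup.subtype_apply]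
      refine ⟨hT _ _ hy.1, fun h => hy.2 ?_⟩
      rw [memD' _ (hT _ _ hy.1), ← mul_assoc, inv_t_mul_of, mul_assoc, hTiff] at h
      exact (memD' _ hy.1).2 h)
  let f : T → T := fun x => if h : t * x.1 ∈ T then ⟨t * x.1, h⟩ else
    ⟨τ₀ x.1, by
      have hx : x.1 ∈ ((T \ D : Finset Γ) : Set Γ) :=
        Finset.mem_coe.2 (Finset.mem_sdiff.2 ⟨x.2, fun h' => h (Finset.mem_filter.1 h').2⟩)
      exact (Finset.mem_sdiff.1 (Finset.mem_coe.1 (hb.1 hx))).1⟩
  have hf1 : ∀ x : T, t * x.1 ∈ T → (f x).1 = t * x.1 := by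
    intro x h
    simp only [f, h, dif_pos]
  have hf2 : ∀ x : T, t * x.1 ∉ T → (f x).1 = τ₀ x.1 := by
    intro x h
    simp only [f, h, dif_neg, not_false_iff]
  have hmemTD : ∀ x : T, t * x.1 ∉ T → x.1 ∈ ((T \ D : Finset Γ) : Set Γ) := fun x h =>
    Finset.mem_coe.2 (Finset.mem_sdiff.2 ⟨x.2, fun h' => h (Finset.mem_filter.1 h').2⟩)
  have hfinj : Function.Injective f := by
    intro x y hxy
    by_cases hx : t * x.1 ∈ T <;> by_cases hy : t * y.1 ∈ T
    · have := congrArg Subtype.val hxy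
      rw [hf1 x hx, hf1 y hy] at this
      exact Subtype.ext (mul_left_cancel this)
    · exfalso
      have := congrArg Subtype.val hxy
      rw [hf1 x hx, hf2 y hy] at this
      have h5 := (Finset.mem_sdiff.1 (Finset.mem_coe.1 (hb.1 (hmemTD y hy)))).2
      apply h5
      rw [← this]
      exact Finset.mem_image.2 ⟨x.1, Finset.mem_filter.2 ⟨x.2, hx⟩, rfl⟩
    · exfalso
      have := congrArg Subtype.val hxy
      rw [hf2 x hx, hf1 y hy] at this
      have h5 := (Finset.mem_sdiff.1 (Finset.mem_coe.1 (hb.1 (hmemTD x hx)))).2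
      apply h5
      rw [this]
      exact Finset.mem_image.2 ⟨y.1, Finset.mem_filter.2 ⟨y.2, hy⟩, rfl⟩
    · have := congrArg Subtype.val hxy
      rw [hf2 x hx, hf2 y hy] at this
      exact Subtype.ext (hb.2.1 (hmemTD x hx) (hmemTD y hy) this)
  have hfbij : Function.Bijective f := Finite.injective_iff_bijective.1 hfinj
  refine ⟨Equiv.ofBijective f hfbij, ?_, ?_⟩
  · intro a x
    simp only [Equiv.ofBijective_apply]
    by_cases hx : t * x.1 ∈ T
    · have hx' : t * (of (a : V) * x.1) ∈ T := by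
        rw [← mul_assoc, t_mul_of, mul_assoc]
        exact hT _ _ hx
      rw [hf1 _ hx', hf1 _ hx, ← mul_assoc, t_mul_of, mul_assoc]
    · have hx' : t * (of (a : V) * x.1) ∉ T := by
        rw [← mul_assoc, t_mul_of, mul_assoc, hTiff]
        exact hx
      rw [hf2 _ hx', hf2 _ hx]
      exact he a x.1 (Finset.mem_coe.1 (hmemTD x hx))
  · intro x hx
    simp only [Equiv.ofBijective_apply]
    exact hf1 x hx

/-- Finite quotients of an HNN extension of a finite group which are injective on a given finite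
set. -/
theorem exists_finite_quotient (E : Finset (HNNExtension V A B φ)) :
    ∃ (H : Type) (_ : Group H) (_ : Finite H) (ρ : HNNExtension V A B φ →* H),
      ∀ e ∈ E, ρ e = 1 → e = 1 := by
  classical
  haveI := Fintype.ofFinite V
  let Γ := HNNExtension V A B φ
  -- the property of a triple: the permutation representation follows the left multiplication
  let Good : Γ → Finset Γ → Prop := fun g T₀ =>
    ∀ (T : Finset Γ) (hT : ∀ v : V, ∀ x ∈ T, (of v : Γ) * x ∈ T) (ρ : Γ →* Equiv.Perm T),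
      (∀ (v : V) (x : T), (ρ (of v) x).1 = of v * x.1) →
      (∀ x : T, t * x.1 ∈ T → (ρ t x).1 = t * x.1) →
      ∀ x : T, (∀ z ∈ T₀, z * x.1 ∈ T) → (ρ g x).1 = g * x.1
  have hGood : ∀ g : Γ, ∃ T₀ : Finset Γ, Good g T₀ := by
    intro g
    induction g using HNNExtension.induction_on with
    | of v => exact ⟨∅, fun T hT ρ h1 _ x _ => h1 v x⟩
    | t => exact ⟨{t}, fun T hT ρ _ h2 x hx => h2 x (hx t (Finset.mem_singleton_self _))⟩
    | mul g h ihg ihh =>
      obtain ⟨T₁, h₁⟩ := ihg
      obtain ⟨T₂, h₂⟩ := ihh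
      refine ⟨T₂ ∪ T₁.image (fun z => z * h), ?_⟩
      intro T hT ρ hρ1 hρ2 x hx
      have e2 : (ρ h x).1 = h * x.1 := h₂ T hT ρ hρ1 hρ2 x
        (fun z hz => hx z (Finset.mem_union_left _ hz))
      rw [map_mul, Equiv.Perm.mul_apply, h₁ T hT ρ hρ1 hρ2 (ρ h x), e2, mul_assoc]
      intro z hz
      rw [e2, ← mul_assoc]
      exact hx _ (Finset.mem_union_right _ (Finset.mem_image.2 ⟨z, hz, rfl⟩))
    | inv g ih =>
      obtain ⟨T₁, h₁⟩ := ih
      refine ⟨{g⁻¹} ∪ T₁.image (fun z => z * g⁻¹), ?_⟩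
      intro T hT ρ hρ1 hρ2 x hx
      have hmem : g⁻¹ * x.1 ∈ T := hx _ (Finset.mem_union_left _ (Finset.mem_singleton_self _))
      have e1 := h₁ T hT ρ hρ1 hρ2 ⟨g⁻¹ * x.1, hmem⟩ (by
        intro z hz
        rw [← mul_assoc]
        exact hx _ (Finset.mem_union_right _ (Finset.mem_image.2 ⟨z, hz, rfl⟩)))
      have e2 : ρ g ⟨g⁻¹ * x.1, hmem⟩ = x := Subtype.ext (by rw [e1]; simp)
      rw [map_inv]
      have e3 : (ρ g)⁻¹ x = ⟨g⁻¹ * x.1, hmem⟩ := by
        rw [Equiv.Perm.inv_eq_iff_eq]; exact e2.symm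
      rw [e3]
  choose T₀ hT₀ using hGood
  let U : Finset Γ := insert 1 (E.biUnion T₀)
  let T : Finset Γ := (Finset.univ ×ˢ U).image (fun p : V × Γ => (of p.1 : Γ) * p.2)
  have hT : ∀ v : V, ∀ x ∈ T, (of v : Γ) * x ∈ T := by
    intro v x hx
    obtain ⟨⟨w, u⟩, hwu, rfl⟩ := Finset.mem_image.1 hx
    refine Finset.mem_image.2 ⟨(v * w, u), ?_, by simp [mul_assoc]⟩
    simpa using hwu
  have hUT : ∀ u ∈ U, u ∈ T := by
    intro u hu
    exact Finset.mem_image.2 ⟨(1, u), by simpa using hu, by simp⟩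
  obtain ⟨τ, hτ1, hτ2⟩ := exists_perm T hT
  let act : V →* Equiv.Perm T :=
    { toFun := fun v =>
        { toFun := fun x => ⟨of v * x.1, hT _ _ x.2⟩
          invFun := fun x => ⟨of v⁻¹ * x.1, hT _ _ x.2⟩
          left_inv := fun x => by apply Subtype.ext; simp
          right_inv := fun x => by apply Subtype.ext; simp }
      map_one' := by ext x; simp
      map_mul' := fun v w => by ext x; simp [mul_assoc] }
  have hact : ∀ (v : V) (x : T), (act v x).1 = of v * x.1 := fun v x => rfl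
  let ρ : Γ →* Equiv.Perm T := HNNExtension.lift act τ (by
    intro a
    apply Equiv.ext
    intro x
    apply Subtype.ext
    exact hτ1 a x)
  refine ⟨Equiv.Perm T, inferInstance, inferInstance, ρ, ?_⟩
  intro e he h1
  have h1T : (1 : Γ) ∈ T := hUT 1 (Finset.mem_insert_self _ _)
  have := hT₀ e T hT ρ (by intro v x; simp only [ρ, lift_of]; exact hact v x)
    (by intro x hx; simp only [ρ, lift_t]; exact hτ2 x hx) ⟨1, h1T⟩ (by
      intro z hz
      have : z ∈ T := hUT z (Finset.mem_insert_of_mem (Finset.mem_biUnion.2 ⟨e, he, hz⟩))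
      simpa using this)
  rw [h1] at this
  simpa using this.symm

end HNN

end Pool.Agent.Helper376.Lac
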