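import Mathlib

namespace Pool.Agent.Helper376.Lac

open HNNExtension

variable {V : Type} [Group V] {A B : Subgroup V} {φ : A ≃* B}

/-- Height in an HNN extension. -/
def hgt : HNNExtension V A B φ →* Multiplicative ℤ :=
  HNNExtension.lift 1 (Multiplicative.ofAdd 1) (by intro a; simp)

theorem hgt_of (v : V) : hgt (of v : HNNExtension V A B φ) = 1 := by
  simp [hgt]

theorem hgt_t : hgt (t : HNNExtension V A B φ) = Multiplicative.ofAdd 1 := by
  simp [hgt]

theorem hgt_t_zpow (n : ℤ) : hgt ((t : HNNExtension V A B φ) ^ n) = Multiplicative.ofAdd n := by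
  rw [map_zpow, hgt_t, ← ofAdd_zsmul]; simp

/-- Membership in the edge group. -/
def InA (g : HNNExtension V A B φ) : Prop := ∃ y ∈ A, g = of y

theorem inA_of_mul {g : HNNExtension V A B φ} (y : V) (hy : y ∈ A) : InA (of y * g) ↔ InA g := by
  constructor
  · rintro ⟨z, hz, h⟩
    refine ⟨y⁻¹ * z, A.mul_mem (A.inv_mem hy) hz, ?_⟩
    rw [map_mul, ← h, map_inv]; group
  · rintro ⟨z, hz, rfl⟩
    exact ⟨y * z, A.mul_mem hy hz, by simp⟩

theorem inA_inv {g : HNNExtension V A B φ} : InA g⁻¹ ↔ InA g := by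
  constructor
  · rintro ⟨z, hz, h⟩
    exact ⟨z⁻¹, A.inv_mem hz, by rw [map_inv, ← h, inv_inv]⟩
  · rintro ⟨z, hz, rfl⟩
    exact ⟨z⁻¹, A.inv_mem hz, by simp⟩

open Classical in
/-- Indicator. -/
noncomputable def ind (g : HNNExtension V A B φ) : ZMod 2 := if InA g then 1 else 0

theorem ind_congr {g h : HNNExtension V A B φ} (e : InA g ↔ InA h) : ind g = ind h := by
  unfold ind
  by_cases hh : InA h
  · rw [if_pos hh, if_pos (e.2 hh)]
  · rw [if_neg hh, if_neg (fun h' => hh (e.1 h'))]

theorem ind_of_mul {g : HNNExtension V A B φ} (y : V) (hy : y ∈ A) : ind (of y * g) = ind g :=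
  ind_congr (inA_of_mul y hy)

theorem add_self_two (c : ZMod 2) : c + c = 0 := CharTwo.add_self_eq_zero c

/-- The stable letter acting on two sheets. -/
noncomputable def tp : Equiv.Perm (HNNExtension V A B φ × ZMod 2) where
  toFun p := (t * p.1, p.2 + ind p.1)
  invFun p := (t⁻¹ * p.1, p.2 + ind (t⁻¹ * p.1))
  left_inv p := by
    ext
    · simp
    · simp only [inv_mul_cancel_left, add_assoc, add_self_two, add_zero]
  right_inv p := by
    ext
    · simp
    · simp only [add_assoc, add_self_two, add_zero]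

/-- The base group acting on two sheets. -/
def vp : V →* Equiv.Perm (HNNExtension V A B φ × ZMod 2) where
  toFun v :=
    { toFun := fun p => (of v * p.1, p.2)
      invFun := fun p => (of v⁻¹ * p.1, p.2)
      left_inv := fun p => by ext <;> simp
      right_inv := fun p => by ext <;> simp }
  map_one' := by ext p <;> simp
  map_mul' v w := by ext p <;> simp [mul_assoc]

/-- The two sheet action. -/
noncomputable def sheet : HNNExtension V A B φ →* Equiv.Perm (HNNExtension V A B φ × ZMod 2) :=
  HNNExtension.lift vp tp (by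
    intro a
    apply Equiv.ext
    rintro ⟨x, c⟩
    simp only [Equiv.Perm.mul_apply, vp, tp, MonoidHom.coe_mk, OneHom.coe_mk, Equiv.coe_fn_mk]
    rw [ind_of_mul _ a.2, ← mul_assoc, t_mul_of, mul_assoc])

theorem sheet_of (v : V) (p : HNNExtension V A B φ × ZMod 2) :
    sheet (of v) p = (of v * p.1, p.2) := by
  unfold sheet
  rw [lift_of]; rfl

theorem sheet_t (p : HNNExtension V A B φ × ZMod 2) :
    sheet t p = (t * p.1, p.2 + ind p.1) := by
  unfold sheet
  rw [lift_t]; rfl

theorem sheet_fst (g : HNNExtension V A B φ) (p : HNNExtension V A B φ × ZMod 2) :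
    (sheet g p).1 = g * p.1 := by
  induction g using HNNExtension.induction_on generalizing p with
  | of v => rw [sheet_of]
  | t => rw [sheet_t]
  | mul x y hx hy => rw [map_mul, Equiv.Perm.mul_apply, hx, hy, mul_assoc]
  | inv x hx =>
    have h := hx ((sheet x)⁻¹ p)
    have h2 : sheet x ((sheet x)⁻¹ p) = p := by
      rw [← Equiv.Perm.mul_apply, mul_inv_cancel]; rfl
    rw [h2] at h
    rw [map_inv, h]; simp

/-- The side of an element. -/
noncomputable def side (g : HNNExtension V A B φ) : ZMod 2 := (sheet g⁻¹ (1, 0)).2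

theorem sheet_inv_eq (g : HNNExtension V A B φ) : sheet g⁻¹ (1, 0) = (g⁻¹, side g) := by
  ext
  · rw [sheet_fst]; simp
  · rfl

theorem side_one : side (1 : HNNExtension V A B φ) = 0 := by
  unfold side
  simp

theorem side_mul_of (g : HNNExtension V A B φ) (v : V) : side (g * of v) = side g := by
  unfold side
  rw [mul_inv_rev, map_mul, Equiv.Perm.mul_apply, sheet_inv_eq, ← map_inv, sheet_of]

theorem side_mul_t_inv (g : HNNExtension V A B φ) : side (g * t⁻¹) = side g + ind g := by
  have h : side (g * t⁻¹) = (sheet (g * t⁻¹)⁻¹ (1, 0)).2 := rfl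
  rw [h, mul_inv_rev, inv_inv, map_mul, Equiv.Perm.mul_apply, sheet_inv_eq, sheet_t]
  have : ind g⁻¹ = ind g := ind_congr inA_inv
  rw [this]

theorem side_mul_t_inv_of_not {g : HNNExtension V A B φ} (h : ¬ InA g) :
    side (g * t⁻¹) = side g := by
  rw [side_mul_t_inv, ind, if_neg h, add_zero]

theorem side_mul_t_of_not {g : HNNExtension V A B φ} (h : ¬ InA (g * t)) :
    side (g * t) = side g := by
  have := side_mul_t_inv_of_not h
  rw [mul_inv_cancel_right] at this
  exact this.symm

theorem not_inA_t_zpow {n : ℤ} (hn : n ≠ 0) : ¬ InA ((t : HNNExtension V A B φ) ^ n) := by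
  rintro ⟨y, _, hy⟩
  have := congrArg hgt hy
  rw [hgt_t_zpow, hgt_of] at this
  exact hn (by simpa using this)

theorem side_t_pow (n : ℕ) : side ((t : HNNExtension V A B φ) ^ (n : ℤ)) = 0 := by
  induction n with
  | zero => simpa using side_one
  | succ n ih =>
    have h : ¬ InA ((t : HNNExtension V A B φ) ^ (((n + 1 : ℕ)) : ℤ)) :=
      not_inA_t_zpow (by omega)
    have e : (t : HNNExtension V A B φ) ^ (((n + 1 : ℕ)) : ℤ) = t ^ (n : ℤ) * t := by
      push_cast; rw [zpow_add_one]
    rw [e] at h ⊢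
    rw [side_mul_t_of_not h, ih]

theorem side_t_neg_pow (n : ℕ) :
    side ((t : HNNExtension V A B φ) ^ (-((n + 1 : ℕ) : ℤ))) = 1 := by
  induction n with
  | zero =>
    have h : InA (1 : HNNExtension V A B φ) := ⟨1, A.one_mem, by simp⟩
    have := side_mul_t_inv (1 : HNNExtension V A B φ)
    rw [side_one, ind, if_pos h, zero_add, one_mul] at this
    simpa using this
  | succ n ih =>
    have h : ¬ InA ((t : HNNExtension V A B φ) ^ (-((n + 1 : ℕ) : ℤ))) :=
      not_inA_t_zpow (by omega)
    have e : (t : HNNExtension V A B φ) ^ (-((n + 1 + 1 : ℕ) : ℤ)) =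
        t ^ (-((n + 1 : ℕ) : ℤ)) * t⁻¹ := by
      rw [← zpow_sub_one]; congr 1
    rw [e, side_mul_t_inv_of_not h, ih]

end Pool.Agent.Helper376.Lac
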