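import Mathlib
import Pool.Agent.Helper376.Ball
import Pool.Agent.Helper376.Lac.Resid
import Pool.Agent.Helper376.Lac.Side

namespace Pool.Agent.Helper376.Lac

open Pool.Agent.Helper376.DL (Ball ball_succ ball_mono ball_add ball_mono_succ)

/-- The lamplighter permutations. -/
abbrev L : Type := Equiv.Perm (ℤ × ZMod 2)

/-- Toggle at the origin. -/
def al : L where
  toFun p := (p.1, p.2 + if p.1 = 0 then 1 else 0)
  invFun p := (p.1, p.2 + if p.1 = 0 then 1 else 0)
  left_inv p := by ext <;> simp [add_assoc, add_self_two]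
  right_inv p := by ext <;> simp [add_assoc, add_self_two]

/-- Shift. -/
def sg : L where
  toFun p := (p.1 + 1, p.2)
  invFun p := (p.1 - 1, p.2)
  left_inv p := by ext <;> simp
  right_inv p := by ext <;> simp

theorem sg_pow (j : ℕ) (p : ℤ × ZMod 2) : (sg ^ j) p = (p.1 + j, p.2) := by
  induction j with
  | zero => simp
  | succ j ih =>
    rw [pow_succ', Equiv.Perm.mul_apply, ih]
    simp only [sg, Equiv.coe_fn_mk]
    ext
    · push_cast; ring
    · rfl

theorem al_conj (j : ℕ) (p : ℤ × ZMod 2) :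
    (sg ^ j * al * (sg ^ j)⁻¹) p = (p.1, p.2 + if p.1 = j then 1 else 0) := by
  have h : (sg ^ j)⁻¹ p = (p.1 - j, p.2) := by
    rw [Equiv.Perm.inv_eq_iff_eq, sg_pow]; simp
  rw [Equiv.Perm.mul_apply, Equiv.Perm.mul_apply, h, sg_pow]
  simp only [al, Equiv.coe_fn_mk, sub_add_cancel]
  congr 2
  simp only [sub_eq_zero]

/-- The finite lamp group. -/
abbrev Lam (M : ℕ) : Type := Multiplicative (ZMod M → ZMod 2)

/-- Rotation. -/
def rot (M : ℕ) : MulAut (Lam M) where
  toFun f := Multiplicative.ofAdd (fun i => Multiplicative.toAdd f (i - 1))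
  invFun f := Multiplicative.ofAdd (fun i => Multiplicative.toAdd f (i + 1))
  left_inv f := by
    apply Multiplicative.toAdd.injective
    funext i
    simp
  right_inv f := by
    apply Multiplicative.toAdd.injective
    funext i
    simp
  map_mul' f g := by
    apply Multiplicative.toAdd.injective
    funext i
    simp

/-- The lamp at the origin. -/
def lam0 (M : ℕ) : Lam M := Multiplicative.ofAdd (fun i => if i = 0 then 1 else 0)

theorem rot_pow (M j : ℕ) (f : Lam M) (i : ZMod M) :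
    Multiplicative.toAdd ((rot M ^ j) f) i = Multiplicative.toAdd f (i - j) := by
  induction j generalizing f with
  | zero => simp
  | succ j ih =>
    rw [pow_succ, MulAut.mul_apply, ih]
    have e : i - ((j + 1 : ℕ) : ZMod M) = i - (j : ZMod M) - 1 := by push_cast; ring
    rw [e]
    rfl

/-- The embedding of the finite lamp group in the permutations. -/
def iot (M : ℕ) : Lam M →* L where
  toFun f :=
    { toFun := fun p => (p.1, p.2 + if 0 ≤ p.1 ∧ p.1 < M then Multiplicative.toAdd f (p.1 : ZMod M)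
        else 0)
      invFun := fun p => (p.1, p.2 + if 0 ≤ p.1 ∧ p.1 < M then Multiplicative.toAdd f (p.1 : ZMod M)
        else 0)
      left_inv := fun p => by ext <;> simp [add_assoc, add_self_two]
      right_inv := fun p => by ext <;> simp [add_assoc, add_self_two] }
  map_one' := by
    ext p
    · simp
    · simp
  map_mul' f g := by
    ext p
    · simp
    · simp only [Equiv.coe_fn_mk, Equiv.Perm.mul_apply]
      split_ifs
      · simp only [toAdd_mul, Pi.add_apply]; ring
      · simp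

theorem iot_apply (M : ℕ) (f : Lam M) (p : ℤ × ZMod 2) :
    iot M f p = (p.1, p.2 + if 0 ≤ p.1 ∧ p.1 < M then Multiplicative.toAdd f (p.1 : ZMod M)
        else 0) := rfl

theorem iot_injective (M : ℕ) [NeZero M] : Function.Injective (iot M) := by
  intro f g h
  apply Multiplicative.toAdd.injective
  funext i
  have h1 := congrArg (fun π : L => (π ((i.val : ℤ), 0)).2) h
  simp only [iot_apply] at h1
  have h2 : (0 : ℤ) ≤ (i.val : ℤ) ∧ (i.val : ℤ) < (M : ℤ) := by
    have := ZMod.val_lt i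
    omega
  rw [if_pos h2, if_pos h2] at h1
  simpa using h1

theorem iot_lam (M j : ℕ) (hj : j < M) :
    iot M ((rot M ^ j) (lam0 M)) = sg ^ j * al * (sg ^ j)⁻¹ := by
  apply Equiv.ext
  intro p
  rw [al_conj, iot_apply]
  ext
  · rfl
  · simp only []
    congr 1
    by_cases h : 0 ≤ p.1 ∧ p.1 < M
    · rw [if_pos h, rot_pow]
      simp only [lam0, toAdd_ofAdd, sub_eq_zero]
      have : ((p.1 : ZMod M) = (j : ZMod M)) ↔ p.1 = j := by
        constructor
        · intro h2
          have h3 : ((p.1 : ℤ) : ZMod M) = ((j : ℤ) : ZMod M) := by push_cast; exact h2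
          rw [ZMod.intCast_eq_intCast_iff] at h3
          have h4 := Int.emod_eq_of_lt h.1 h.2
          have h5 := Int.emod_eq_of_lt (show (0 : ℤ) ≤ j by omega) (show (j : ℤ) < M by omega)
          rw [← h4, ← h5]
          exact h3
        · intro h2
          rw [h2]; simp
      simp only [this]
    · rw [if_neg h, if_neg]
      intro h2
      apply h
      omega

/-- The data of a stage of the construction. -/
structure Stage : Type 1 where
  V : Type
  grp : Group V
  fin : Finite V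
  θ : MulAut V
  x : V
  K : ℕ
  ell : V →* L
  hell : ∀ j : ℕ, j ≤ K → ell ((θ ^ j) x) = sg ^ j * al * (sg ^ j)⁻¹

attribute [instance] Stage.grp Stage.fin

namespace Stage

variable (s : Stage)

/-- The subgroup conjugated by the stable letter. -/
def A : Subgroup s.V := Subgroup.closure {y | ∃ j : ℕ, j < s.K ∧ y = (s.θ ^ j) s.x}

/-- Its image. -/
def B : Subgroup s.V := s.A.map (s.θ : s.V ≃* s.V).toMonoidHom

/-- The isomorphism. -/
def φ : s.A ≃* s.B := (s.θ : s.V ≃* s.V).subgroupMap s.A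

/-- The HNN extension. -/
abbrev E : Type := HNNExtension s.V s.A s.B s.φ

theorem phi_apply (y : s.A) : (s.φ y : s.V) = s.θ y := rfl

/-- The marking. -/
def pi : FreeGroup (Fin 2) →* s.E :=
  FreeGroup.lift ![HNNExtension.of s.x, HNNExtension.t]

end Stage

/-- First generator of the free group. -/
def fa : FreeGroup (Fin 2) := FreeGroup.of 0

/-- Second generator of the free group. -/
def ft : FreeGroup (Fin 2) := FreeGroup.of 1

namespace Stage

variable (s : Stage)

theorem pi_fa : s.pi fa = HNNExtension.of s.x := by simp [pi, fa]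

theorem pi_ft : s.pi ft = HNNExtension.t := by simp [pi, ft]

theorem t_conj (y : s.V) (hy : y ∈ s.A) :
    (HNNExtension.t : s.E) * HNNExtension.of y * HNNExtension.t⁻¹ = HNNExtension.of (s.θ y) := by
  have := HNNExtension.equiv_eq_conj (φ := s.φ) (⟨y, hy⟩ : s.A)
  rw [phi_apply] at this
  exact this.symm

theorem pow_mem_A {j : ℕ} (hj : j < s.K) : (s.θ ^ j) s.x ∈ s.A :=
  Subgroup.subset_closure ⟨j, hj, rfl⟩

theorem pi_conj (j : ℕ) (hj : j ≤ s.K) :
    s.pi (ft ^ j * fa * (ft ^ j)⁻¹) = HNNExtension.of ((s.θ ^ j) s.x) := by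
  induction j with
  | zero => simp [pi_fa]
  | succ j ih =>
    have h1 := ih (by omega)
    have h2 : ft ^ (j + 1) * fa * (ft ^ (j + 1))⁻¹ = ft * (ft ^ j * fa * (ft ^ j)⁻¹) * ft⁻¹ := by
      rw [pow_succ']; group
    rw [h2, map_mul, map_mul, map_inv, h1, pi_ft, t_conj s _ (s.pow_mem_A (by omega)), pow_succ',
      MulAut.mul_apply]

theorem ell_theta (y : s.V) (hy : y ∈ s.A) : s.ell (s.θ y) = sg * s.ell y * sg⁻¹ := by
  unfold A at hy
  induction hy using Subgroup.closure_induction with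
  | mem y hy =>
    obtain ⟨j, hj, rfl⟩ := hy
    rw [← MulAut.mul_apply, ← pow_succ', s.hell _ (by omega), s.hell _ (by omega), pow_succ']
    group
  | one => simp
  | mul y z _ _ h1 h2 => rw [map_mul, map_mul, h1, h2, map_mul]; group
  | inv y _ h => rw [map_inv, map_inv, h, map_inv]; group

/-- The lamplighter quotient of a stage. -/
def lamp : s.E →* L :=
  HNNExtension.lift s.ell sg (by
    intro y
    rw [phi_apply, s.ell_theta y y.2]; group)

end Stage

/-- The lamplighter quotient of the free group. -/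
def lampF : FreeGroup (Fin 2) →* L := FreeGroup.lift ![al, sg]

/-- The height on the free group. -/
def hF : FreeGroup (Fin 2) →* Multiplicative ℤ := FreeGroup.lift ![1, Multiplicative.ofAdd 1]

theorem hF_fa : hF fa = 1 := by simp [hF, fa]

theorem hF_ft : hF ft = Multiplicative.ofAdd 1 := by simp [hF, ft]

theorem free_ext {G : Type} [Group G] (f g : FreeGroup (Fin 2) →* G) (h0 : f fa = g fa)
    (h1 : f ft = g ft) : f = g := by
  apply FreeGroup.ext_hom
  intro i
  fin_cases i
  · exact h0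
  · exact h1

namespace Stage

variable (s : Stage)

theorem lamp_pi : s.lamp.comp s.pi = lampF := by
  apply free_ext
  · rw [MonoidHom.comp_apply, pi_fa]
    simp only [lamp, HNNExtension.lift_of]
    have := s.hell 0 (Nat.zero_le _)
    simpa [lampF, fa] using this
  · rw [MonoidHom.comp_apply, pi_ft]
    simp [lamp, lampF, ft]

theorem lampF_of_pi {w : FreeGroup (Fin 2)} (h : s.pi w = 1) : lampF w = 1 := by
  rw [← s.lamp_pi, MonoidHom.comp_apply, h, map_one]

theorem hgt_pi : (hgt : s.E →* Multiplicative ℤ).comp s.pi = hF := by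
  apply free_ext
  · rw [MonoidHom.comp_apply, pi_fa, hgt_of, hF_fa]
  · rw [MonoidHom.comp_apply, pi_ft, hgt_t, hF_ft]

theorem hF_of_pi {w : FreeGroup (Fin 2)} (h : s.pi w = 1) : hF w = 1 := by
  rw [← s.hgt_pi, MonoidHom.comp_apply, h, map_one]

end Stage

/-- The letters. -/
def SF : Set (FreeGroup (Fin 2)) := {1, fa, fa⁻¹, ft, ft⁻¹}

theorem SF_finite : SF.Finite := by unfold SF; exact Set.toFinite _

theorem SF_one : (1 : FreeGroup (Fin 2)) ∈ SF := by simp [SF]

theorem SF_inv {x : FreeGroup (Fin 2)} (h : x ∈ SF) : x⁻¹ ∈ SF := by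
  simp only [SF, Set.mem_insert_iff, Set.mem_singleton_iff] at h ⊢
  rcases h with rfl | rfl | rfl | rfl | rfl <;> simp

theorem ball_finite {G : Type} [Group G] {S : Set G} (hS : S.Finite) (k : ℕ) :
    (Ball S k).Finite := by
  induction k with
  | zero => exact Set.finite_singleton _
  | succ k ih =>
    refine (Set.Finite.image2 (fun x y => x * y) ih hS).subset ?_
    rintro g ⟨x, hx, y, hy, rfl⟩
    exact ⟨x, hx, y, hy, rfl⟩

/-- The window subgroup of the free group. -/
def Win (K : ℕ) : Subgroup (FreeGroup (Fin 2)) :=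
  Subgroup.closure {y | ∃ j : ℕ, j ≤ K ∧ y = ft ^ j * fa * (ft ^ j)⁻¹}

theorem Win_mono {K K' : ℕ} (h : K ≤ K') : Win K ≤ Win K' := by
  apply Subgroup.closure_mono
  rintro y ⟨j, hj, rfl⟩
  exact ⟨j, by omega, rfl⟩

/-- The symmetric window. -/
def WinZ (K : ℕ) : Subgroup (FreeGroup (Fin 2)) :=
  Subgroup.closure {y | ∃ j : ℤ, -(K : ℤ) ≤ j ∧ j ≤ K ∧ y = ft ^ j * fa * (ft ^ j)⁻¹}

theorem WinZ_mono {K K' : ℕ} (h : K ≤ K') : WinZ K ≤ WinZ K' := by
  apply Subgroup.closure_mono
  rintro y ⟨j, hj1, hj2, rfl⟩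
  exact ⟨j, by omega, by omega, rfl⟩

theorem WinZ_conj {K R : ℕ} (h : K ≤ R) {w : FreeGroup (Fin 2)} (hw : w ∈ WinZ K) :
    ft ^ R * w * (ft ^ R)⁻¹ ∈ Win (2 * R) := by
  unfold WinZ at hw
  induction hw using Subgroup.closure_induction with
  | mem y hy =>
    obtain ⟨j, hj1, hj2, rfl⟩ := hy
    refine Subgroup.subset_closure ⟨(R + j).toNat, by omega, ?_⟩
    have e : ft ^ (R + j).toNat = ft ^ R * ft ^ j := by
      rw [← zpow_natCast, Int.toNat_of_nonneg (by omega), zpow_add, zpow_natCast]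
    rw [e]; group
  | one => simp
  | mul y z _ _ h1 h2 =>
    have e : ft ^ R * (y * z) * (ft ^ R)⁻¹ =
      (ft ^ R * y * (ft ^ R)⁻¹) * (ft ^ R * z * (ft ^ R)⁻¹) := by group
    rw [e]; exact Subgroup.mul_mem _ h1 h2
  | inv y _ h1 =>
    have e : ft ^ R * y⁻¹ * (ft ^ R)⁻¹ = (ft ^ R * y * (ft ^ R)⁻¹)⁻¹ := by group
    rw [e]; exact Subgroup.inv_mem _ h1

theorem ball_decomp {k : ℕ} {w : FreeGroup (Fin 2)} (hw : w ∈ Ball SF k) :
    ∃ h : ℤ, (-(k : ℤ) ≤ h ∧ h ≤ k) ∧ ∃ ν ∈ WinZ k, w = ν * ft ^ h := by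
  induction k generalizing w with
  | zero =>
    have : w = 1 := hw
    exact ⟨0, by simp, 1, Subgroup.one_mem _, by simp [this]⟩
  | succ k ih =>
    obtain ⟨x, hx, y, hy, rfl⟩ := hw
    obtain ⟨h, hh, ν, hν, rfl⟩ := ih hx
    have hν' : ν ∈ WinZ (k + 1) := WinZ_mono (Nat.le_succ k) hν
    have hlamp : ft ^ h * fa * (ft ^ h)⁻¹ ∈ WinZ (k + 1) :=
      Subgroup.subset_closure ⟨h, by push_cast; omega, by push_cast; omega, rfl⟩
    simp only [SF, Set.mem_insert_iff, Set.mem_singleton_iff] at hy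
    rcases hy with rfl | rfl | rfl | rfl | rfl
    · exact ⟨h, by push_cast; omega, ν, hν', by simp⟩
    · exact ⟨h, by push_cast; omega, ν * (ft ^ h * fa * (ft ^ h)⁻¹),
        Subgroup.mul_mem _ hν' hlamp, by group⟩
    · exact ⟨h, by push_cast; omega, ν * (ft ^ h * fa * (ft ^ h)⁻¹)⁻¹,
        Subgroup.mul_mem _ hν' (Subgroup.inv_mem _ hlamp), by group⟩
    · exact ⟨h + 1, by push_cast; omega, ν, hν', by rw [zpow_add_one, mul_assoc]⟩
    · exact ⟨h - 1, by push_cast; omega, ν, hν', by rw [zpow_sub_one, mul_assoc]⟩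

theorem hF_zpow (h : ℤ) : hF (ft ^ h) = Multiplicative.ofAdd h := by
  rw [map_zpow, hF_ft, ← ofAdd_zsmul]; simp

theorem hF_WinZ {k : ℕ} {ν : FreeGroup (Fin 2)} (h : ν ∈ WinZ k) : hF ν = 1 := by
  unfold WinZ at h
  induction h using Subgroup.closure_induction with
  | mem y hy =>
    obtain ⟨j, _, _, rfl⟩ := hy
    rw [map_mul, map_mul, map_inv, hF_fa]; simp
  | one => simp
  | mul y z _ _ h1 h2 => rw [map_mul, h1, h2, one_mul]
  | inv y _ h1 => rw [map_inv, h1, inv_one]

theorem short_window {R : ℕ} {w : FreeGroup (Fin 2)} (hw : w ∈ Ball SF R) (h : hF w = 1) :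
    ft ^ R * w * (ft ^ R)⁻¹ ∈ Win (2 * R) := by
  obtain ⟨k, hk, ν, hν, rfl⟩ := ball_decomp hw
  rw [map_mul, hF_WinZ hν, one_mul, hF_zpow] at h
  have : k = 0 := by simpa using h
  subst this
  rw [zpow_zero, mul_one]
  exact WinZ_conj le_rfl hν

/-- Existence of the next stage. -/
theorem exists_next (s : Stage) (R : ℕ) : ∃ s' : Stage, R ≤ s'.K ∧ s.K ≤ s'.K ∧
    (∀ w ∈ Win s'.K, s.pi w = 1 → s'.pi w = 1) ∧
    (∀ w ∈ Ball SF R, (s'.pi w = 1 ↔ s.pi w = 1)) := by
  classical
  let E₀ : Set s.E := (fun w => s.pi (ft ^ R * w * (ft ^ R)⁻¹)) '' (Ball SF R)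
  have hE₀ : E₀.Finite := (ball_finite SF_finite R).image _
  obtain ⟨H, hH1, hH2, ρ, hρ⟩ := exists_finite_quotient (A := s.A) (B := s.B) (φ := s.φ)
    hE₀.toFinset
  let K' : ℕ := 2 * R + s.K
  have hM : NeZero (K' + 1) := ⟨by omega⟩
  haveI : Finite (Lam (K' + 1)) := by
    have : Finite (ZMod (K' + 1) → ZMod 2) := inferInstance
    exact this
  let θ' : MulAut (H × Lam (K' + 1)) :=
    MulEquiv.prodCongr (MulAut.conj (ρ HNNExtension.t)) (rot (K' + 1))
  have hθ : ∀ (j : ℕ) (p : H × Lam (K' + 1)), (θ' ^ j) p =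
      (ρ HNNExtension.t ^ j * p.1 * (ρ HNNExtension.t ^ j)⁻¹, (rot (K' + 1) ^ j) p.2) := by
    intro j
    induction j with
    | zero => intro p; simp
    | succ j ih =>
      intro p
      have h1 : ∀ q : H × Lam (K' + 1), θ' q =
          (ρ HNNExtension.t * q.1 * (ρ HNNExtension.t)⁻¹, rot (K' + 1) q.2) := fun q => rfl
      rw [pow_succ', MulAut.mul_apply, ih, h1]
      ext1
      · simp only []
        rw [pow_succ']; group
      · simp only []
        rw [pow_succ', MulAut.mul_apply]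
  let s' : Stage :=
    { V := H × Lam (K' + 1)
      grp := inferInstance
      fin := inferInstance
      θ := θ'
      x := (ρ (HNNExtension.of s.x), lam0 (K' + 1))
      K := K'
      ell := (iot (K' + 1)).comp (MonoidHom.snd _ _)
      hell := by
        intro j hj
        rw [MonoidHom.comp_apply, hθ]
        simp only [MonoidHom.coe_snd]
        exact iot_lam (K' + 1) j (by omega) }
  have hs'K : s'.K = K' := rfl
  -- evaluation of windows
  have key : ∀ w ∈ Win K', ∃ v : s'.V, s'.pi w = HNNExtension.of v ∧ ρ (s.pi w) = v.1 ∧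
      lampF w = iot (K' + 1) v.2 := by
    intro w hw
    unfold Win at hw
    induction hw using Subgroup.closure_induction with
    | mem y hy =>
      obtain ⟨j, hj, rfl⟩ := hy
      refine ⟨(s'.θ ^ j) s'.x, s'.pi_conj j hj, ?_, ?_⟩
      · change _ = ((θ' ^ j) (ρ (HNNExtension.of s.x), lam0 (K' + 1))).1
        rw [hθ]
        simp only [map_mul, map_pow, map_inv, s.pi_fa, s.pi_ft]
      · change _ = iot (K' + 1) ((θ' ^ j) (ρ (HNNExtension.of s.x), lam0 (K' + 1))).2
        rw [hθ]
        simp only []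
        rw [iot_lam (K' + 1) j (by omega)]
        simp [lampF, fa, ft]
    | one => exact ⟨1, by simp, by simp, by simp⟩
    | mul y z _ _ h1 h2 =>
      obtain ⟨v, hv1, hv2, hv3⟩ := h1
      obtain ⟨u, hu1, hu2, hu3⟩ := h2
      exact ⟨v * u, by rw [map_mul, hv1, hu1, map_mul], by rw [map_mul, map_mul, hv2, hu2]; rfl,
        by rw [map_mul, hv3, hu3, ← map_mul]; rfl⟩
    | inv y _ h1 =>
      obtain ⟨v, hv1, hv2, hv3⟩ := h1
      exact ⟨v⁻¹, by rw [map_inv, hv1, map_inv], by rw [map_inv, map_inv, hv2]; rfl,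
        by rw [map_inv, hv3, ← map_inv]; rfl⟩
  have S1 : ∀ w ∈ Win K', s.pi w = 1 → s'.pi w = 1 := by
    intro w hw h
    obtain ⟨v, hv1, hv2, hv3⟩ := key w hw
    rw [h, map_one] at hv2
    rw [s.lampF_of_pi h] at hv3
    have h4 : v.2 = 1 := by
      apply iot_injective (K' + 1)
      rw [← hv3, map_one]
    have : v = 1 := Prod.ext hv2.symm h4
    rw [hv1, this, map_one]
  refine ⟨s', by rw [hs'K]; omega, by rw [hs'K]; omega, S1, ?_⟩
  intro w hw
  have conj1 : ∀ (st : Stage), st.pi (ft ^ R * w * (ft ^ R)⁻¹) = 1 ↔ st.pi w = 1 := by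
    intro st
    rw [map_mul, map_mul, map_inv, mul_inv_eq_one]
    constructor
    · intro h; exact mul_eq_left.1 h
    · intro h; rw [h, mul_one]
  constructor
  · intro h
    have hh := s'.hF_of_pi h
    have hwin := Win_mono (show 2 * R ≤ K' by omega) (short_window hw hh)
    obtain ⟨v, hv1, hv2, _⟩ := key _ hwin
    rw [(conj1 s').2 h] at hv1
    have hv : v = 1 := HNNExtension.of_injective s'.φ (by rw [← hv1, map_one])
    rw [hv] at hv2
    have h5 := hρ (s.pi (ft ^ R * w * (ft ^ R)⁻¹)) (by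
      rw [Set.Finite.mem_toFinset]; exact ⟨w, hw, rfl⟩) hv2
    exact (conj1 s).1 h5
  · intro h
    have hh := s.hF_of_pi h
    have hwin := Win_mono (show 2 * R ≤ K' by omega) (short_window hw hh)
    exact (conj1 s').1 (S1 _ hwin ((conj1 s).2 h))

end Pool.Agent.Helper376.Lac
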