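import Mathlib
import Pool.Agent.Helper376.Lac.Stage
import Pool.Agent.Helper376.Lac.OneEnd

namespace Pool.Agent.Helper376.Lac

open Pool.Agent.Helper376.DL (Ball ball_succ ball_mono ball_add ball_mono_succ)

theorem ball_inv {k : ℕ} {w : FreeGroup (Fin 2)} (h : w ∈ Ball SF k) : w⁻¹ ∈ Ball SF k := by
  have key : ∀ k : ℕ, ∀ (y : FreeGroup (Fin 2)) (x : FreeGroup (Fin 2)), y ∈ SF → x ∈ Ball SF k →
      y * x ∈ Ball SF (k + 1) := by
    intro k
    induction k with
    | zero =>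
      intro y x hy hx
      have : x = 1 := hx
      subst this
      exact ⟨1, rfl, y, hy, by simp⟩
    | succ k ih =>
      rintro y x hy ⟨z, hz, u, hu, rfl⟩
      exact ⟨y * z, ih y z hy hz, u, hu, by rw [mul_assoc]⟩
  induction k generalizing w with
  | zero =>
    have : w = 1 := h
    subst this
    simpa using h
  | succ k ih =>
    obtain ⟨x, hx, y, hy, rfl⟩ := h
    rw [mul_inv_rev]
    exact key k _ _ (SF_inv hy) (ih hx)

theorem exists_ball (w : FreeGroup (Fin 2)) : ∃ k, w ∈ Ball SF k := by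
  have h : w ∈ Subgroup.closure (Set.range (FreeGroup.of : Fin 2 → FreeGroup (Fin 2))) := by
    rw [FreeGroup.closure_range_of]; trivial
  induction h using Subgroup.closure_induction with
  | mem x hx =>
    obtain ⟨i, rfl⟩ := hx
    refine ⟨1, 1, rfl, FreeGroup.of i, ?_, by simp⟩
    fin_cases i
    · simp [SF, fa]
    · simp [SF, ft]
  | one => exact ⟨0, rfl⟩
  | mul x y _ _ h1 h2 =>
    obtain ⟨k, hk⟩ := h1
    obtain ⟨l, hl⟩ := h2
    exact ⟨k + l, ball_add hk hl⟩
  | inv x _ h1 =>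
    obtain ⟨k, hk⟩ := h1
    exact ⟨k, ball_inv hk⟩

/-- All elements of the edge group are values of short words. -/
theorem exists_rad (s : Stage) : ∃ r : ℕ, ∀ y ∈ s.A, ∃ u ∈ Ball SF r, s.pi u = HNNExtension.of y := by
  have h1 : ∀ y ∈ s.A, ∃ u, s.pi u = HNNExtension.of y := by
    intro y hy
    unfold Stage.A at hy
    induction hy using Subgroup.closure_induction with
    | mem y hy =>
      obtain ⟨j, hj, rfl⟩ := hy
      exact ⟨_, s.pi_conj j (by omega)⟩
    | one => exact ⟨1, by simp⟩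
    | mul y z _ _ h1 h2 =>
      obtain ⟨u, hu⟩ := h1
      obtain ⟨v, hv⟩ := h2
      exact ⟨u * v, by rw [map_mul, hu, hv, map_mul]⟩
    | inv y _ h1 =>
      obtain ⟨u, hu⟩ := h1
      exact ⟨u⁻¹, by rw [map_inv, hu, map_inv]⟩
  choose! f hf using h1
  choose g hg using exists_ball
  obtain ⟨r, hr⟩ := ((Set.toFinite (s.A : Set s.V)).image (fun y => g (f y))).bddAbove
  exact ⟨r, fun y hy => ⟨f y, ball_mono SF_one (hr ⟨y, hy, rfl⟩) (hg _), hf y hy⟩⟩

/-- The separating radius. -/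
noncomputable def Stage.rad (s : Stage) : ℕ := (exists_rad s).choose

theorem Stage.rad_spec (s : Stage) :
    ∀ y ∈ s.A, ∃ u ∈ Ball SF s.rad, s.pi u = HNNExtension.of y := (exists_rad s).choose_spec

/-- The first stage. -/
def stage0 : Stage where
  V := Lam 1
  grp := inferInstance
  fin := by
    have : Finite (ZMod 1 → ZMod 2) := inferInstance
    exact this
  θ := rot 1
  x := lam0 1
  K := 0
  ell := iot 1
  hell := fun j hj => iot_lam 1 j (by omega)

/-- The growth function. -/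
def big (i r : ℕ) : ℕ := (i + 10) ^ 10 * (r + i + 10)

/-- The next stage. -/
noncomputable def nxt (s : Stage) (R : ℕ) : Stage := (exists_next s R).choose

theorem nxt_spec (s : Stage) (R : ℕ) : R ≤ (nxt s R).K ∧ s.K ≤ (nxt s R).K ∧
    (∀ w ∈ Win (nxt s R).K, s.pi w = 1 → (nxt s R).pi w = 1) ∧
    (∀ w ∈ Ball SF R, ((nxt s R).pi w = 1 ↔ s.pi w = 1)) := (exists_next s R).choose_spec

/-- The sequence of stages with radii. -/
noncomputable def sq : ℕ → Stage × ℕ
  | 0 => (stage0, big 0 stage0.rad)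
  | (i + 1) => (nxt (sq i).1 (sq i).2,
      max (sq i).2 (big (i + 1) (nxt (sq i).1 (sq i).2).rad))

/-- The stages. -/
noncomputable def St (i : ℕ) : Stage := (sq i).1

/-- The radii. -/
noncomputable def Rd (i : ℕ) : ℕ := (sq i).2

theorem St_succ (i : ℕ) : St (i + 1) = nxt (St i) (Rd i) := rfl

theorem Rd_succ (i : ℕ) : Rd (i + 1) = max (Rd i) (big (i + 1) (St (i + 1)).rad) := rfl

theorem Rd_big (i : ℕ) : big i (St i).rad ≤ Rd i := by
  cases i with
  | zero => exact le_rfl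
  | succ i => rw [Rd_succ]; exact le_max_right _ _

theorem Rd_mono {i j : ℕ} (h : i ≤ j) : Rd i ≤ Rd j := by
  induction h with
  | refl => exact le_rfl
  | step _ ih => rw [Nat.succ_eq_add_one, Rd_succ]; exact le_trans ih (le_max_left _ _)

theorem le_Rd (i : ℕ) : i ≤ Rd i := by
  refine le_trans ?_ (Rd_big i)
  unfold big
  have h1 : 1 ≤ (i + 10) ^ 10 := Nat.one_le_pow _ _ (by omega)
  nlinarith

theorem K_mono {i j : ℕ} (h : i ≤ j) : (St i).K ≤ (St j).K := by
  induction h with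
  | refl => exact le_rfl
  | step _ ih =>
    rw [Nat.succ_eq_add_one, St_succ]
    exact le_trans ih (nxt_spec _ _).2.1

theorem le_K (i : ℕ) : i ≤ (St (i + 1)).K := by
  rw [St_succ]
  exact le_trans (le_Rd i) (nxt_spec _ _).1

theorem short_iff {i j : ℕ} (h : i ≤ j) {w : FreeGroup (Fin 2)} (hw : w ∈ Ball SF (Rd i)) :
    (St j).pi w = 1 ↔ (St i).pi w = 1 := by
  induction h with
  | refl => exact Iff.rfl
  | @step j hij ih =>
    rw [Nat.succ_eq_add_one, St_succ]
    exact ((nxt_spec (St j) (Rd j)).2.2.2 w (ball_mono SF_one (Rd_mono hij) hw)).trans ih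

theorem win_imp {i j : ℕ} (h : i ≤ j) {w : FreeGroup (Fin 2)} (hw : w ∈ Win (St i).K)
    (h1 : (St i).pi w = 1) : (St j).pi w = 1 := by
  induction h with
  | refl => exact h1
  | @step j hij ih =>
    rw [Nat.succ_eq_add_one, St_succ]
    exact (nxt_spec (St j) (Rd j)).2.2.1 w
      (Win_mono (le_trans (K_mono hij) (nxt_spec (St j) (Rd j)).2.1) hw) ih

/-- The limit kernel. -/
def Kinf : Subgroup (FreeGroup (Fin 2)) where
  carrier := {w | ∃ i₀, ∀ i, i₀ ≤ i → (St i).pi w = 1}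
  one_mem' := ⟨0, fun i _ => map_one _⟩
  mul_mem' := by
    rintro u v ⟨i, hi⟩ ⟨j, hj⟩
    refine ⟨max i j, fun k hk => ?_⟩
    rw [map_mul, hi k (le_trans (le_max_left _ _) hk), hj k (le_trans (le_max_right _ _) hk),
      one_mul]
  inv_mem' := by
    rintro u ⟨i, hi⟩
    exact ⟨i, fun k hk => by rw [map_inv, hi k hk, inv_one]⟩

instance : Kinf.Normal where
  conj_mem := by
    rintro u ⟨i, hi⟩ g
    exact ⟨i, fun k hk => by rw [map_mul, map_mul, hi k hk, map_inv, mul_one, mul_inv_cancel]⟩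

theorem mem_Kinf_short {i : ℕ} {w : FreeGroup (Fin 2)} (hw : w ∈ Ball SF (Rd i)) :
    w ∈ Kinf ↔ (St i).pi w = 1 := by
  constructor
  · rintro ⟨i₀, hi₀⟩
    have := hi₀ (max i i₀) (le_max_right _ _)
    exact (short_iff (le_max_left i i₀) hw).1 this
  · intro h
    exact ⟨i, fun k hk => (short_iff hk hw).2 h⟩

theorem mem_Kinf_win {i : ℕ} {w : FreeGroup (Fin 2)} (hw : w ∈ Win (St i).K)
    (h : (St i).pi w = 1) : w ∈ Kinf := ⟨i, fun k hk => win_imp hk hw h⟩

theorem lampF_Kinf {w : FreeGroup (Fin 2)} (h : w ∈ Kinf) : lampF w = 1 := by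
  obtain ⟨i, hi⟩ := h
  exact (St i).lampF_of_pi (hi i le_rfl)

theorem hF_Kinf {w : FreeGroup (Fin 2)} (h : w ∈ Kinf) : hF w = 1 := by
  obtain ⟨i, hi⟩ := h
  exact (St i).hF_of_pi (hi i le_rfl)

/-- The limit group. -/
abbrev GG : Type := FreeGroup (Fin 2) ⧸ Kinf

/-- The projection. -/
def q : FreeGroup (Fin 2) →* GG := QuotientGroup.mk' Kinf

theorem q_surj : Function.Surjective q := QuotientGroup.mk'_surjective Kinf

theorem q_eq_one {w : FreeGroup (Fin 2)} : q w = 1 ↔ w ∈ Kinf := QuotientGroup.eq_one_iff w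

/-- Generators of the limit group. -/
def ga : GG := q fa
/-- Generators of the limit group. -/
def gt : GG := q ft

theorem gen : Subgroup.closure ({ga, gt} : Set GG) = ⊤ := by
  have h1 : Subgroup.closure (Set.range (FreeGroup.of : Fin 2 → FreeGroup (Fin 2))) = ⊤ :=
    FreeGroup.closure_range_of _
  have h2 : Subgroup.map q (Subgroup.closure (Set.range
      (FreeGroup.of : Fin 2 → FreeGroup (Fin 2)))) = ⊤ := by
    rw [h1, ← MonoidHom.range_eq_map, MonoidHom.range_eq_top]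
    exact q_surj
  rw [MonoidHom.map_closure] at h2
  rw [eq_top_iff, ← h2]
  apply Subgroup.closure_mono
  rintro _ ⟨_, ⟨i, rfl⟩, rfl⟩
  fin_cases i
  · left; rfl
  · right; rfl

/-- The height on the limit group. -/
def eta : GG →* Multiplicative ℤ := QuotientGroup.lift Kinf hF (fun _ hw => hF_Kinf hw)

theorem eta_q (w : FreeGroup (Fin 2)) : eta (q w) = hF w := rfl

theorem eta_ga : eta ga = 1 := by
  change hF fa = 1
  exact hF_fa

theorem eta_gt : eta gt = Multiplicative.ofAdd 1 := by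
  change hF ft = _
  exact hF_ft

theorem al_zconj (j : ℤ) (p : ℤ × ZMod 2) :
    (sg ^ j * al * (sg ^ j)⁻¹) p = (p.1, p.2 + if p.1 = j then 1 else 0) := by
  have hs : ∀ (j : ℤ) (p : ℤ × ZMod 2), (sg ^ j) p = (p.1 + j, p.2) := by
    intro j p
    rcases Int.eq_nat_or_neg j with ⟨n, rfl | rfl⟩
    · rw [zpow_natCast, sg_pow]
    · rw [zpow_neg, zpow_natCast, Equiv.Perm.inv_eq_iff_eq, sg_pow]
      simp
  have h : (sg ^ j)⁻¹ p = (p.1 - j, p.2) := by
    rw [Equiv.Perm.inv_eq_iff_eq, hs]; simp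
  rw [Equiv.Perm.mul_apply, Equiv.Perm.mul_apply, h, hs]
  simp only [al, Equiv.coe_fn_mk, sub_add_cancel]
  congr 2
  simp only [sub_eq_zero]

theorem lamp_inj (i j : ℤ) (h : gt ^ i * ga * (gt ^ i)⁻¹ = gt ^ j * ga * (gt ^ j)⁻¹) : i = j := by
  have h1 : q ((ft ^ i * fa * (ft ^ i)⁻¹) * (ft ^ j * fa * (ft ^ j)⁻¹)⁻¹) = 1 := by
    rw [map_mul, map_inv, mul_inv_eq_one]
    simp only [map_mul, map_zpow, map_inv]
    exact h
  rw [q_eq_one] at h1
  have h2 := lampF_Kinf h1
  rw [map_mul, map_inv, mul_inv_eq_one] at h2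
  simp only [map_mul, map_zpow, map_inv] at h2
  have e1 : lampF fa = al := by simp [lampF, fa]
  have e2 : lampF ft = sg := by simp [lampF, ft]
  rw [e1, e2] at h2
  have h3 := congrArg (fun π : L => (π (i, 0)).2) h2
  simp only [al_zconj] at h3
  by_contra hne
  simp [hne] at h3

theorem win_finite (K : ℕ) : ((Win K).map q : Set GG).Finite := by
  obtain ⟨i, hi⟩ : ∃ i, K ≤ (St i).K := ⟨K + 1, le_K K⟩
  have hKi : Win K ≤ Win (St i).K := Win_mono hi
  -- every word of the window evaluates in the base group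
  have hev : ∀ w ∈ Win (St i).K, ∃ v : (St i).V, (St i).pi w = HNNExtension.of v := by
    intro w hw
    unfold Win at hw
    induction hw using Subgroup.closure_induction with
    | mem y hy =>
      obtain ⟨j, hj, rfl⟩ := hy
      exact ⟨_, (St i).pi_conj j hj⟩
    | one => exact ⟨1, by simp⟩
    | mul y z _ _ h1 h2 =>
      obtain ⟨u, hu⟩ := h1
      obtain ⟨v, hv⟩ := h2
      exact ⟨u * v, by rw [map_mul, hu, hv, map_mul]⟩
    | inv y _ h1 =>
      obtain ⟨u, hu⟩ := h1
      exact ⟨u⁻¹, by rw [map_inv, hu, map_inv]⟩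
  choose! f hf using hev
  -- the map from the base group
  have hinj : ∀ u ∈ Win (St i).K, ∀ w ∈ Win (St i).K, f u = f w → q u = q w := by
    intro u hu w hw h
    have h1 : (St i).pi (u * w⁻¹) = 1 := by
      rw [map_mul, map_inv, hf u hu, hf w hw, h, mul_inv_cancel]
    have h2 := mem_Kinf_win (Subgroup.mul_mem _ hu (Subgroup.inv_mem _ hw)) h1
    rw [← q_eq_one, map_mul, map_inv, mul_inv_eq_one] at h2
    exact h2
  classical
  let g : (St i).V → GG := fun v => if h : ∃ w ∈ Win (St i).K, f w = v then q h.choose else 1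
  refine (Set.finite_range g).subset ?_
  rintro _ ⟨w, hw, rfl⟩
  have hw' := hKi hw
  refine ⟨f w, ?_⟩
  have hex : ∃ w' ∈ Win (St i).K, f w' = f w := ⟨w, hw', rfl⟩
  simp only [g, dif_pos hex]
  exact hinj _ hex.choose_spec.1 _ hw' hex.choose_spec.2

theorem WG_finite (m : ℕ) : (WG ga gt m : Set GG).Finite := by
  have h := win_finite (2 * m)
  refine (h.image (fun g => (gt ^ m)⁻¹ * g * gt ^ m)).subset ?_
  intro g hg
  have key : gt ^ m * g * (gt ^ m)⁻¹ ∈ (Win (2 * m)).map q := by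
    have hg' : g ∈ WG ga gt m := hg
    unfold WG at hg'
    induction hg' using Subgroup.closure_induction with
    | mem y hy =>
      obtain ⟨j, hj1, hj2, rfl⟩ := hy
      refine ⟨ft ^ m * (ft ^ j * fa * (ft ^ j)⁻¹) * (ft ^ m)⁻¹,
        WinZ_conj le_rfl (Subgroup.subset_closure ⟨j, hj1, hj2, rfl⟩), ?_⟩
      simp only [map_mul, map_pow, map_zpow, map_inv]
      rfl
    | one => simpa using Subgroup.one_mem _
    | mul y z _ _ h1 h2 =>
      have e : gt ^ m * (y * z) * (gt ^ m)⁻¹ =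
        (gt ^ m * y * (gt ^ m)⁻¹) * (gt ^ m * z * (gt ^ m)⁻¹) := by group
      rw [e]; exact Subgroup.mul_mem _ (h1 ‹_›) (h2 ‹_›)
    | inv y _ h1 =>
      have e : gt ^ m * y⁻¹ * (gt ^ m)⁻¹ = (gt ^ m * y * (gt ^ m)⁻¹)⁻¹ := by group
      rw [e]; exact Subgroup.inv_mem _ (h1 ‹_›)
  exact ⟨_, key, by group⟩

end Pool.Agent.Helper376.Lac
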