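import Mathlib
import Pool.Agent.Helper376.Lac.Sphere

namespace Pool.Agent.Helper376.Lac

open Pool.Agent.Helper376.DL (Ball ball_succ ball_mono ball_add ball_mono_succ)
open Relation

variable {G : Type} [Group G]

theorem ball_fin {U : Set G} (hU : U.Finite) (k : ℕ) : (Ball U k).Finite := by
  induction k with
  | zero => exact Set.finite_singleton 1
  | succ k ih =>
    refine (Set.Finite.image2 (fun x y => x * y) ih hU).subset ?_
    rintro g ⟨x, hx, y, hy, rfl⟩
    exact ⟨x, hx, y, hy, rfl⟩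

theorem ball_subset_ball {U V : Set G} {l : ℕ} (h : U ⊆ Ball V l) {k : ℕ} {g : G}
    (hg : g ∈ Ball U k) : g ∈ Ball V (l * k) := by
  induction k generalizing g with
  | zero => exact hg
  | succ k ih =>
    obtain ⟨x, hx, y, hy, rfl⟩ := hg
    exact ball_add (ih hx) (h hy)

theorem ball_inv' {V : Set G} (hV : ∀ s ∈ V, s⁻¹ ∈ V) {k : ℕ} {w : G} (h : w ∈ Ball V k) :
    w⁻¹ ∈ Ball V k := by
  have key : ∀ k : ℕ, ∀ (y : G) (x : G), y ∈ V → x ∈ Ball V k → y * x ∈ Ball V (k + 1) := by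
    intro k
    induction k with
    | zero =>
      intro y x hy hx
      have : x = 1 := hx
      subst this
      exact ⟨1, rfl, y, hy, by simp⟩
    | succ k ih =>
      rintro y x hy ⟨z, hz, u, hu, rfl⟩
      exact ⟨y * z, ih y z hy hz, u, hu, by rw [mul_assoc]⟩
  induction k generalizing w with
  | zero =>
    have : w = 1 := h
    subst this
    simpa using h
  | succ k ih =>
    obtain ⟨x, hx, y, hy, rfl⟩ := h
    rw [mul_inv_rev]
    exact key k _ _ (hV _ hy) (ih hx)

theorem exists_mem_ball' {V : Set G} (hV : ∀ s ∈ V, s⁻¹ ∈ V)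
    (hgen : Subgroup.closure V = ⊤) (g : G) : ∃ k, g ∈ Ball V k := by
  have hg : g ∈ Subgroup.closure V := by rw [hgen]; trivial
  induction hg using Subgroup.closure_induction_right with
  | one => exact ⟨0, rfl⟩
  | mul_right x y hx hy ih =>
    obtain ⟨k, hk⟩ := ih
    exact ⟨k + 1, ball_succ hk hy⟩
  | mul_inv_cancel x y hx hy ih =>
    obtain ⟨k, hk⟩ := ih
    exact ⟨k + 1, ball_succ hk (hV _ hy)⟩

theorem exists_scale {U V : Set G} (hU : U.Finite) (h1 : (1 : G) ∈ V) (hV : ∀ s ∈ V, s⁻¹ ∈ V)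
    (hgen : Subgroup.closure V = ⊤) : ∃ l, ∀ l', l ≤ l' → U ⊆ Ball V l' := by
  choose f hf using exists_mem_ball' hV hgen
  obtain ⟨l, hl⟩ := (hU.image f).bddAbove
  exact ⟨l, fun l' hl' u hu => ball_mono h1 (le_trans (hl ⟨u, hu, rfl⟩) hl') (hf u)⟩

/-- Refining paths. -/
theorem Joined.refine {U V X Y : Set G} {l : ℕ} (h1 : (1 : G) ∈ V) (hUV : U ⊆ Ball V l)
    (hXY : ∀ x ∈ X, ∀ v ∈ Ball V l, x * v ∈ Y) {g h : G} (hj : Joined U X g h) :
    Joined V Y g h := by
  have aux : ∀ k, k ≤ l → ∀ x ∈ X, ∀ v ∈ Ball V k, Joined V Y x (x * v) := by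
    intro k
    induction k with
    | zero =>
      intro _ x _ v hv
      have : v = 1 := hv
      subst this
      rw [mul_one]
      exact ReflTransGen.refl
    | succ k ih =>
      rintro hk x hx _ ⟨v, hv, s, hs, rfl⟩
      refine (ih (by omega) x hx v hv).trans (Joined.single ?_ ?_ ?_)
      · exact hXY x hx v (ball_mono h1 (by omega) hv)
      · exact hXY x hx _ (ball_mono h1 hk (ball_succ hv hs))
      · have e : (x * v)⁻¹ * (x * (v * s)) = s := by group
        rw [e]; exact hs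
  induction hj with
  | refl => exact ReflTransGen.refl
  | @tail y z _ hstep ih =>
    obtain ⟨hy, _, hs⟩ := hstep
    refine ih.trans ?_
    have := aux l le_rfl y hy (y⁻¹ * z) (hUV hs)
    rwa [mul_inv_cancel_left] at this

theorem ineq_aux (l R d : ℕ) :
    2 * (l * (l * (d + l + 1) + R + l * (l * (l * (d + l + 1) + l))) + l) + 1 + d ≤
      big (l + R) d := by
  unfold big
  obtain ⟨X, hX⟩ : ∃ X, X = l + R + 10 := ⟨_, rfl⟩
  obtain ⟨Y, hY⟩ : ∃ Y, Y = d + (l + R) + 10 := ⟨_, rfl⟩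
  rw [← hX, ← hY]
  have hl : l ≤ X := by omega
  have hR : R ≤ X := by omega
  have hX10 : 10 ≤ X := by omega
  have hY1 : 1 ≤ Y := by omega
  have h1 : l * (d + l + 1) + l ≤ X * Y := by
    have : l * (d + l + 1) + l = l * (d + l + 2) := by ring
    rw [this]
    exact Nat.mul_le_mul hl (by omega)
  have h2 : l * (l * (d + l + 1) + l) ≤ X * (X * Y) := Nat.mul_le_mul hl h1
  have h3 : l * (l * (l * (d + l + 1) + l)) ≤ X * (X * (X * Y)) := Nat.mul_le_mul hl h2
  have hXY : X ≤ X * Y := Nat.le_mul_of_pos_right _ (by omega)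
  have hXXY : X * Y ≤ X * (X * (X * Y)) := by
    calc X * Y ≤ X * (X * Y) := Nat.le_mul_of_pos_left _ (by omega)
      _ ≤ X * (X * (X * Y)) := Nat.le_mul_of_pos_left _ (by omega)
  have h4 : l * (d + l + 1) + R + l * (l * (l * (d + l + 1) + l)) ≤ 3 * (X * (X * (X * Y))) := by
    have : l * (d + l + 1) ≤ X * Y := by omega
    omega
  have h5 : l * (l * (d + l + 1) + R + l * (l * (l * (d + l + 1) + l))) ≤
      X * (3 * (X * (X * (X * Y)))) := Nat.mul_le_mul hl h4
  have h6 : X * (3 * (X * (X * (X * Y)))) = 3 * (X ^ 4 * Y) := by ring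
  have h7 : X ≤ X ^ 4 * Y := by
    calc X ≤ X * (X * (X * (X * Y))) := by
          calc X ≤ X * Y := hXY
            _ ≤ X * (X * (X * Y)) := hXXY
            _ ≤ X * (X * (X * (X * Y))) := Nat.le_mul_of_pos_left _ (by omega)
      _ = X ^ 4 * Y := by ring
  have h8 : Y ≤ X ^ 4 * Y := Nat.le_mul_of_pos_left _ (by positivity)
  have hd : d ≤ Y := by omega
  have h9 : 2 * (l * (l * (d + l + 1) + R + l * (l * (l * (d + l + 1) + l))) + l) + 1 + d ≤
      10 * (X ^ 4 * Y) := by omega
  refine le_trans h9 ?_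
  calc 10 * (X ^ 4 * Y) ≤ X * (X ^ 4 * Y) := Nat.mul_le_mul hX10 le_rfl
    _ = X ^ 5 * Y := by ring
    _ ≤ X ^ 10 * Y := Nat.mul_le_mul (Nat.pow_le_pow_right (by omega) (by omega)) le_rfl

theorem gt_inj : Function.Injective (fun j : ℤ => gt ^ j) := by
  intro i j h
  have h1 := congrArg eta h
  simp only [eta_zpow eta eta_gt] at h1
  exact Multiplicative.ofAdd.injective h1

theorem GG_infinite : Infinite GG := Infinite.of_injective _ gt_inj

theorem SG_one {a t : G} : (1 : G) ∈ SG a t := Or.inl rfl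

theorem SG_finite (a t : G) : (SG a t).Finite := by
  unfold SG
  exact Set.toFinite _

theorem SG_gen : Subgroup.closure (SG ga gt) = ⊤ := by
  rw [eq_top_iff, ← gen]
  apply Subgroup.closure_mono
  rintro x (rfl | hx)
  · right; left; rfl
  · rw [Set.mem_singleton_iff] at hx
    subst hx
    right; right; right; left; rfl

end Pool.Agent.Helper376.Lac
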